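import Pool.Agent.R316.HN.Defs

set_option autoImplicit false

noncomputable section

open Matrix Finset

namespace Pool.Agent.R316.HN

variable {p : ℕ} [Fact p.Prime] {d : ℕ}

lemma ppos : (0 : ℝ) < p := by exact_mod_cast (Fact.out : p.Prime).pos

lemma one_lt_p : (1 : ℝ) < p := by exact_mod_cast (Fact.out : p.Prime).one_lt

lemma rpos (m : ℤ) : (0 : ℝ) < (p : ℝ) ^ m := zpow_pos ppos m

/-- the indicator function of the ball of radius `p^(-m)` around `a` -/
def ind (a : V p d) (m : ℤ) : S p d :=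
  ⟨(Metric.closedBall a ((p : ℝ) ^ (-m))).indicator 1,
    lc_indicator (IsUltrametricDist.isClopen_closedBall _ (rpos _).ne'),
    hcs_indicator (isCompact_closedBall _ _)⟩

lemma ind_apply_of {a x : V p d} {m : ℤ} (h : ‖x - a‖ ≤ (p : ℝ) ^ (-m)) : (ind a m).1 x = 1 := by
  unfold ind
  exact Set.indicator_of_mem (by rwa [Metric.mem_closedBall, dist_eq_norm]) _

lemma ind_apply_of_not {a x : V p d} {m : ℤ} (h : ¬ ‖x - a‖ ≤ (p : ℝ) ^ (-m)) :
    (ind a m).1 x = 0 := by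
  unfold ind
  exact Set.indicator_of_notMem (by rwa [Metric.mem_closedBall, dist_eq_norm]) _

lemma one_apply_of {x : V p d} (h : ‖x‖ ≤ 1) : (oneS p d).1 x = 1 :=
  Set.indicator_of_mem (by rw [unit_ball_eq]; simpa using h) _

lemma one_apply_of_not {x : V p d} (h : ¬ ‖x‖ ≤ 1) : (oneS p d).1 x = 0 :=
  Set.indicator_of_notMem (by rw [unit_ball_eq]; simpa using h) _

lemma cont (f : S p d) : Continuous f.1 := f.2.1.continuous

lemma bdd (f : S p d) : BddAbove (Set.range fun x => ‖f.1 x‖) := by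
  obtain ⟨C, hC⟩ := f.2.2.exists_bound_of_continuous (cont f)
  exact ⟨C, by rintro _ ⟨x, rfl⟩; exact hC x⟩

/-- the ball of radius `p^(-m)` around `0`, a subgroup -/
def U (m : ℤ) : AddSubgroup (V p d) where
  carrier := {x | ‖x‖ ≤ (p : ℝ) ^ (-m)}
  add_mem' := by
    intro a b ha hb
    exact (IsUltrametricDist.norm_add_le_max a b).trans (max_le ha hb)
  zero_mem' := by
    show ‖(0 : V p d)‖ ≤ _
    rw [norm_zero]; exact (rpos _).le
  neg_mem' := by
    intro a ha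
    show ‖-a‖ ≤ _
    rw [norm_neg]; exact ha

/-- an element of `𝒮` is invariant under a small ball -/
lemma exists_inv (f : S p d) : ∃ m : ℕ, ∀ x z : V p d, ‖z‖ ≤ (p : ℝ) ^ (-(m : ℤ)) →
    f.1 (x + z) = f.1 x := by
  have hK : IsCompact (tsupport f.1) := f.2.2
  obtain ⟨δ, hδ, h⟩ := lebesgue_number_lemma_of_metric hK (c := fun y : ℂ_[p] => {x | f.1 x = y})
    (fun y => f.2.1.isOpen_fiber y) (fun x _ => Set.mem_iUnion.2 ⟨f.1 x, rfl⟩)
  obtain ⟨m, hm⟩ : ∃ m : ℕ, (p : ℝ) ^ (-(m : ℤ)) < δ := by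
    obtain ⟨m, hm⟩ := exists_pow_lt_of_lt_one hδ (inv_lt_one_of_one_lt₀ (one_lt_p (p := p)))
    exact ⟨m, by rwa [_root_.zpow_neg, zpow_natCast, ← inv_pow]⟩
  have key : ∀ x ∈ tsupport f.1, ∀ z : V p d, ‖z‖ ≤ (p : ℝ) ^ (-(m : ℤ)) →
      f.1 (x + z) = f.1 x := by
    intro x hx z hz
    obtain ⟨y, hy⟩ := h x hx
    have h1 : x ∈ {x | f.1 x = y} := hy (Metric.mem_ball_self hδ)
    have h2 : x + z ∈ {x | f.1 x = y} := hy (by
      rw [Metric.mem_ball, dist_eq_norm, add_sub_cancel_left]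
      exact hz.trans_lt hm)
    exact (show f.1 (x + z) = y from h2).trans (show f.1 x = y from h1).symm
  refine ⟨m, fun x z hz => ?_⟩
  by_cases hx : x ∈ tsupport f.1
  · exact key x hx z hz
  by_cases hx' : x + z ∈ tsupport f.1
  · have := key (x + z) hx' (-z) (by rwa [norm_neg])
    rw [add_neg_cancel_right] at this
    exact this.symm
  · rw [image_eq_zero_of_notMem_tsupport hx, image_eq_zero_of_notMem_tsupport hx']

lemma exists_supp (f : S p d) : ∃ M : ℕ, ∀ x : V p d, f.1 x ≠ 0 → ‖x‖ ≤ (p : ℝ) ^ M := by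
  obtain ⟨R, hR⟩ := (IsCompact.isBounded f.2.2).exists_norm_le
  obtain ⟨M, hM⟩ := pow_unbounded_of_one_lt R (one_lt_p (p := p))
  exact ⟨M, fun x hx => (hR x (subset_tsupport _ hx)).trans hM.le⟩

/-- decomposition of an element of `𝒮` into indicator functions of balls -/
lemma decomp (f : S p d) (m : ℤ)
    (hm : ∀ x z : V p d, ‖z‖ ≤ (p : ℝ) ^ (-m) → f.1 (x + z) = f.1 x) :
    ∃ F : Finset (V p d), f = ∑ a ∈ F, f.1 a • ind a m := by
  classical
  have hK : IsCompact (tsupport f.1) := f.2.2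
  obtain ⟨t, -, htf, ht⟩ := hK.finite_cover_balls (rpos (p := p) (-m))
  let π : V p d → V p d ⧸ (U m : AddSubgroup (V p d)) := QuotientAddGroup.mk
  have hπ : ∀ x y : V p d, π x = π y ↔ ‖y - x‖ ≤ (p : ℝ) ^ (-m) := by
    intro x y
    rw [QuotientAddGroup.eq, neg_add_eq_sub]
    exact Iff.rfl
  let F : Finset (V p d) := (htf.toFinset.image π).image Quotient.out
  have hinj : ∀ a ∈ F, ∀ b ∈ F, ‖b - a‖ ≤ (p : ℝ) ^ (-m) → a = b := by
    intro a ha b hb hab
    obtain ⟨q, -, rfl⟩ := Finset.mem_image.1 ha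
    obtain ⟨q', -, rfl⟩ := Finset.mem_image.1 hb
    have h1 : π (Quotient.out q) = π (Quotient.out q') := (hπ _ _).2 hab
    have h2 : π (Quotient.out q) = q := Quotient.out_eq q
    have h3 : π (Quotient.out q') = q' := Quotient.out_eq q'
    rw [h2, h3] at h1
    rw [h1]
  refine ⟨F, ?_⟩
  apply S_ext
  intro x
  have hval : (∑ a ∈ F, f.1 a • ind a m : S p d).1 x = ∑ a ∈ F, f.1 a * (ind a m).1 x :=
    sum_val _ _ _
  rw [hval]
  by_cases hx : ∃ a ∈ F, ‖x - a‖ ≤ (p : ℝ) ^ (-m)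
  · obtain ⟨a, ha, hxa⟩ := hx
    rw [Finset.sum_eq_single a, ind_apply_of hxa, mul_one]
    · have := hm a (x - a) hxa
      rwa [add_sub_cancel] at this
    · intro b hb hba
      rw [ind_apply_of_not, mul_zero]
      intro hxb
      apply hba
      apply hinj b hb a ha
      have e : a - b = (x - b) + (a - x) := by abel
      rw [e]
      exact (IsUltrametricDist.norm_add_le_max _ _).trans (max_le hxb (by rwa [norm_sub_rev]))
    · intro h; exact absurd ha h
  · push Not at hx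
    rw [Finset.sum_eq_zero]
    · by_contra h0
      have h1 : x ∈ tsupport f.1 := subset_tsupport _ h0
      have h2 := ht h1
      simp only [Set.mem_iUnion] at h2
      obtain ⟨y, hy, hxy⟩ := h2
      have hyF : Quotient.out (π y) ∈ F :=
        Finset.mem_image_of_mem _ (Finset.mem_image_of_mem _ (htf.mem_toFinset.2 hy))
      have h3 : π (Quotient.out (π y)) = π y := Quotient.out_eq _
      rw [hπ] at h3
      have h4 := hx _ hyF
      have e : x - Quotient.out (π y) = (x - y) + (y - Quotient.out (π y)) := by abel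
      rw [e] at h4
      refine absurd ((IsUltrametricDist.norm_add_le_max _ _).trans (max_le ?_ h3)) (not_le.2 h4)
      rw [Metric.mem_ball, dist_eq_norm] at hxy
      exact hxy.le
    · intro a ha
      rw [ind_apply_of_not (not_le.2 (hx a ha)), mul_zero]

/-- translation invariance of a linear functional -/
def TInv (l : S p d →ₗ[ℂ_[p]] ℂ_[p]) : Prop := ∀ (a : V p d) (f : S p d), l (tau a f) = l f

lemma tau_ind (a : V p d) (m : ℤ) : tau (-a) (ind 0 m) = ind a m := by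
  apply S_ext
  intro x
  show (ind 0 m).1 (x + -a) = (ind a m).1 x
  by_cases h : ‖x - a‖ ≤ (p : ℝ) ^ (-m)
  · rw [ind_apply_of h, ind_apply_of (by rwa [sub_zero, ← sub_eq_add_neg])]
  · rw [ind_apply_of_not h, ind_apply_of_not (by rwa [sub_zero, ← sub_eq_add_neg])]

lemma TInv.shift {l : S p d →ₗ[ℂ_[p]] ℂ_[p]} (hl : TInv l) (a : V p d) (m : ℤ) :
    l (ind a m) = l (ind 0 m) := by
  rw [← tau_ind, hl]

/-- `‖x - k‖ ≤ p^(-m)` for exactly one `k : Fin d → Fin (p ^ m)` -/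
lemma exists_rep (m : ℕ) (x : V p d) (hx : ‖x‖ ≤ 1) :
    ∃ k : Fin d → Fin (p ^ m), ‖x - (fun i => ((k i : ℕ) : ℚ_[p]))‖ ≤ (p : ℝ) ^ (-(m : ℤ)) := by
  have hx' : ∀ i, ‖x i‖ ≤ 1 := fun i => (norm_le_pi_norm x i).trans hx
  refine ⟨fun i => ⟨PadicInt.appr (⟨x i, hx' i⟩ : ℤ_[p]) m, PadicInt.appr_lt _ _⟩, ?_⟩
  rw [pi_norm_le_iff_of_nonneg (rpos _).le]
  intro i
  have h := PadicInt.appr_spec m (⟨x i, hx' i⟩ : ℤ_[p])
  rw [← PadicInt.norm_le_pow_iff_mem_span_pow] at h
  exact h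

lemma rep_unique (m : ℕ) (k k' : Fin d → Fin (p ^ m))
    (h : ‖(fun i => ((k i : ℕ) : ℚ_[p])) - (fun i => ((k' i : ℕ) : ℚ_[p]))‖
      ≤ (p : ℝ) ^ (-(m : ℤ))) : k = k' := by
  rw [pi_norm_le_iff_of_nonneg (rpos _).le] at h
  funext i
  have h1 := h i
  have h2 : ‖(((k i : ℤ) - (k' i : ℤ) : ℤ) : ℚ_[p])‖ ≤ (p : ℝ) ^ (-(m : ℤ)) := by
    push_cast
    exact h1
  rw [Padic.norm_int_le_pow_iff_dvd] at h2
  have h3 := (k i).2
  have h4 := (k' i).2
  have h5 : (k i : ℤ) - (k' i : ℤ) = 0 := by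
    apply Int.eq_zero_of_abs_lt_dvd h2
    rw [abs_lt]
    have h3' : ((k i : ℕ) : ℤ) < ((p ^ m : ℕ) : ℤ) := by exact_mod_cast h3
    have h4' : ((k' i : ℕ) : ℤ) < ((p ^ m : ℕ) : ℤ) := by exact_mod_cast h4
    push_cast at h3' h4'
    constructor <;> omega
  apply Fin.ext
  omega

/-- the unit ball is the union of `p^(md)` balls of radius `p^(-m)` -/
lemma one_decomp (m : ℕ) : oneS p d =
    ∑ k : Fin d → Fin (p ^ m), ind (fun i => ((k i : ℕ) : ℚ_[p])) (m : ℤ) := by
  classical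
  apply S_ext
  intro x
  rw [sum_val]
  by_cases hx : ‖x‖ ≤ 1
  · obtain ⟨k, hk⟩ := exists_rep m x hx
    rw [one_apply_of hx, Finset.sum_eq_single k, ind_apply_of hk]
    · intro k' _ hk'
      apply ind_apply_of_not
      intro h
      apply hk'
      apply rep_unique
      have e : (fun i => ((k' i : ℕ) : ℚ_[p])) - (fun i => ((k i : ℕ) : ℚ_[p])) =
        (x - (fun i => ((k i : ℕ) : ℚ_[p]))) + ((fun i => ((k' i : ℕ) : ℚ_[p])) - x) := by abel
      rw [e]
      exact (IsUltrametricDist.norm_add_le_max _ _).trans (max_le hk (by rwa [norm_sub_rev]))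
    · intro h; exact absurd (Finset.mem_univ _) h
  · rw [one_apply_of_not hx, Finset.sum_eq_zero]
    intro k _
    apply ind_apply_of_not
    intro h
    apply hx
    have e : x = (x - (fun i => ((k i : ℕ) : ℚ_[p]))) + (fun i => ((k i : ℕ) : ℚ_[p])) := by abel
    rw [e]
    refine (IsUltrametricDist.norm_add_le_max _ _).trans (max_le (h.trans ?_) ?_)
    · exact zpow_le_one_of_nonpos₀ (one_lt_p (p := p)).le (by simp)
    · rw [pi_norm_le_iff_of_nonneg zero_le_one]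
      intro i
      exact_mod_cast Padic.norm_int_le_one (p := p) ((k i : ℕ) : ℤ)

/-- value on a small ball -/
lemma TInv.small {l : S p d →ₗ[ℂ_[p]] ℂ_[p]} (hl : TInv l) (m : ℕ) :
    ((p : ℂ_[p]) ^ m) ^ d * l (ind 0 m) = l (oneS p d) := by
  rw [one_decomp m, map_sum, Finset.sum_congr rfl (fun k _ => hl.shift _ _), Finset.sum_const,
    Finset.card_univ, Fintype.card_fun, Fintype.card_fin, Fintype.card_fin, nsmul_eq_mul]
  push_cast
  rfl

lemma p_ne : (p : ℂ_[p]) ≠ 0 := by exact_mod_cast (Fact.out : p.Prime).ne_zero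

/-- two translation invariant functionals are proportional -/
lemma TInv.prop {l J : S p d →ₗ[ℂ_[p]] ℂ_[p]} (hl : TInv l) (hJ : TInv J)
    (h1 : J (oneS p d) = 1) (f : S p d) : l f = l (oneS p d) * J f := by
  obtain ⟨m, hm⟩ := exists_inv f
  obtain ⟨F, hF⟩ := decomp f m hm
  have h2 : ∀ l : S p d →ₗ[ℂ_[p]] ℂ_[p], TInv l → l f = (∑ a ∈ F, f.1 a) * l (ind 0 m) := by
    intro l hl
    conv_lhs => rw [hF]
    rw [map_sum, Finset.sum_mul]
    refine Finset.sum_congr rfl fun a _ => ?_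
    rw [map_smul, smul_eq_mul, hl.shift]
  rw [h2 l hl, h2 J hJ]
  have h3 := hl.small m
  have h4 := hJ.small m
  rw [h1] at h4
  have h5 : l (ind 0 m) = l (oneS p d) * J (ind 0 m) := by
    rw [← h3, mul_right_comm, h4, one_mul]
  rw [h5]; ring

end Pool.Agent.R316.HN
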