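import Pool.Agent.R316.HN.Basic

set_option autoImplicit false

noncomputable section

open Finset

namespace Pool.Agent.R316.HN

variable {p : ℕ} [Fact p.Prime]

/-- `z ↦ ψ (c z)` is trivial on `ℤ_p`, but not at `p⁻¹` -/
structure Std (ψ : AddChar ℚ_[p] ℂ_[p]) (c : ℚ_[p]) : Prop where
  triv : ∀ z : ℚ_[p], ‖z‖ ≤ 1 → ψ (c * z) = 1
  ne : ψ (c * (p : ℚ_[p])⁻¹) ≠ 1

lemma norm_p' : ‖(p : ℚ_[p])‖ = (p : ℝ)⁻¹ := Padic.norm_p

lemma pQ_ne : (p : ℚ_[p]) ≠ 0 := by exact_mod_cast (Fact.out : p.Prime).ne_zero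

lemma exists_nat_approx (m : ℕ) (u : ℚ_[p]) (hu : ‖u‖ ≤ 1) :
    ∃ a : ℕ, a < p ^ m ∧ ‖u - a‖ ≤ (p : ℝ) ^ (-(m : ℤ)) := by
  refine ⟨PadicInt.appr (⟨u, hu⟩ : ℤ_[p]) m, PadicInt.appr_lt _ _, ?_⟩
  have h := PadicInt.appr_spec m (⟨u, hu⟩ : ℤ_[p])
  rw [← PadicInt.norm_le_pow_iff_mem_span_pow] at h
  exact h

lemma map_natMul (ψ : AddChar ℚ_[p] ℂ_[p]) (n : ℕ) (x : ℚ_[p]) : ψ (n * x) = ψ x ^ n := by
  rw [← nsmul_eq_mul, AddChar.map_nsmul_eq_pow]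

/-- if `ψ (c v) = 1` and `ψ (c ·) = 1` on `ℤ_p`, then `ψ (c v u) = 1` for `‖u‖ ≤ 1`, `‖v‖ ≤ p` -/
lemma triv_mul {ψ : AddChar ℚ_[p] ℂ_[p]} {c : ℚ_[p]} (h : ∀ z : ℚ_[p], ‖z‖ ≤ 1 → ψ (c * z) = 1)
    {v u : ℚ_[p]} (hv : ‖v‖ ≤ p) (hu : ‖u‖ ≤ 1) (h1 : ψ (c * v) = 1) : ψ (c * (v * u)) = 1 := by
  obtain ⟨a, -, ha⟩ := exists_nat_approx 1 u hu
  have e : c * (v * u) = a * (c * v) + c * (v * (u - a)) := by ring
  rw [e, AddChar.map_add_eq_mul, map_natMul, h1, one_pow, one_mul]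
  apply h
  rw [norm_mul]
  calc ‖v‖ * ‖u - a‖ ≤ p * (p : ℝ) ^ (-((1 : ℕ) : ℤ)) :=
        mul_le_mul hv ha (norm_nonneg _) ppos.le
    _ = 1 := by
        have := ppos (p := p)
        simp only [Nat.cast_one, _root_.zpow_neg, zpow_one]
        field_simp

lemma exists_std {ψ : AddChar ℚ_[p] ℂ_[p]} (hψ : IsLocallyConstant ψ) (hne : ψ ≠ 1) :
    ∃ c : ℚ_[p], c ≠ 0 ∧ Std ψ c := by
  classical
  obtain ⟨x₀, hx₀⟩ : ∃ x, ψ x ≠ 1 := by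
    by_contra h
    push Not at h
    exact hne (by ext x; simpa using h x)
  obtain ⟨k, hk⟩ := pow_unbounded_of_one_lt ‖x₀‖ (one_lt_p (p := p))
  have h0 : ∀ᶠ x in nhds (0 : ℚ_[p]), ψ x = 1 := by
    have := hψ.eventually_eq 0
    simpa using this
  obtain ⟨ε, hε, hball⟩ := Metric.eventually_nhds_iff.1 h0
  obtain ⟨n, hn⟩ := exists_pow_lt_of_lt_one hε (inv_lt_one_of_one_lt₀ (one_lt_p (p := p)))
  have hex : ∃ j : ℕ, ∀ x : ℚ_[p], ‖x‖ ≤ (p : ℝ) ^ ((k : ℤ) - j) → ψ x = 1 := by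
    refine ⟨k + n, fun x hx => hball ?_⟩
    rw [dist_zero_right]
    refine hx.trans_lt ?_
    have e : (k : ℤ) - ((k + n : ℕ) : ℤ) = -(n : ℤ) := by push_cast; ring
    rw [e, _root_.zpow_neg, zpow_natCast, ← inv_pow]
    exact hn
  set j := Nat.find hex with hj
  have hj1 := Nat.find_spec hex
  rw [← hj] at hj1
  have hj0 : j ≠ 0 := by
    intro h
    rw [h] at hj1
    apply hx₀
    apply hj1
    simpa using hk.le
  obtain ⟨j', hj'⟩ := Nat.exists_eq_succ_of_ne_zero hj0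
  have hj2 := Nat.find_min hex (m := j') (by rw [← hj, hj']; exact Nat.lt_succ_self _)
  push Not at hj2
  obtain ⟨x₁, hx₁, hx₁'⟩ := hj2
  set c : ℚ_[p] := (p : ℚ_[p]) ^ ((j : ℤ) - k) with hc
  have hc0 : c ≠ 0 := zpow_ne_zero _ pQ_ne
  have hcn : ‖c‖ = (p : ℝ) ^ ((k : ℤ) - j) := by
    rw [hc, Padic.norm_p_zpow]
    congr 1; ring
  have htriv : ∀ z : ℚ_[p], ‖z‖ ≤ 1 → ψ (c * z) = 1 := by
    intro z hz
    apply hj1
    rw [norm_mul, hcn]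
    calc _ ≤ (p : ℝ) ^ ((k : ℤ) - j) * 1 := mul_le_mul_of_nonneg_left hz (rpos _).le
      _ = _ := mul_one _
  refine ⟨c, hc0, htriv, fun h => hx₁' ?_⟩
  have e : x₁ = c * ((p : ℚ_[p])⁻¹ * (x₁ * p / c)) := by
    have := pQ_ne (p := p)
    field_simp
  rw [e]
  apply triv_mul htriv _ _ h
  · rw [norm_inv, norm_p', inv_inv]
  · rw [norm_div, norm_mul, hcn, norm_p']
    have e2 : (p : ℝ) ^ ((k : ℤ) - j) = (p : ℝ) ^ ((k : ℤ) - j') * (p : ℝ)⁻¹ := by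
      rw [hj', ← zpow_neg_one, ← zpow_add₀ ppos.ne']
      congr 1; push_cast; ring
    rw [e2]
    apply div_le_one_of_le₀
    · exact mul_le_mul_of_nonneg_right hx₁ (inv_nonneg.2 ppos.le)
    · exact mul_nonneg (rpos _).le (inv_nonneg.2 ppos.le)

variable {ψ : AddChar ℚ_[p] ℂ_[p]} {c : ℚ_[p]}

lemma Std.ne_one (h : Std ψ c) {v : ℚ_[p]} (hv : ‖v‖ = p) : ψ (c * v) ≠ 1 := by
  intro h1
  have hv0 : v ≠ 0 := by
    rintro rfl
    rw [norm_zero] at hv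
    exact (ppos (p := p)).ne hv
  apply h.ne
  have e : (p : ℚ_[p])⁻¹ = v * ((p : ℚ_[p])⁻¹ / v) := by field_simp
  rw [e]
  apply triv_mul h.triv hv.le _ h1
  rw [norm_div, norm_inv, norm_p', inv_inv, hv]
  exact (div_self ppos.ne').le

lemma Std.prim (h : Std ψ c) {z : ℚ_[p]} {k : ℕ} (hz : ‖z‖ = (p : ℝ) ^ (k + 1)) :
    IsPrimitiveRoot (ψ (c * z)) (p ^ (k + 1)) := by
  have h1 : orderOf (ψ (c * z)) = p ^ (k + 1) := by
    apply orderOf_eq_prime_pow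
    · rw [← map_natMul]
      have e : ((p ^ k : ℕ) : ℚ_[p]) * (c * z) = c * ((p : ℚ_[p]) ^ k * z) := by push_cast; ring
      rw [e]
      apply h.ne_one
      rw [norm_mul, norm_pow, norm_p', hz, pow_succ, ← mul_assoc, ← mul_pow,
        inv_mul_cancel₀ ppos.ne', one_pow, one_mul]
    · rw [← map_natMul]
      have e : ((p ^ (k + 1) : ℕ) : ℚ_[p]) * (c * z) = c * ((p : ℚ_[p]) ^ (k + 1) * z) := by
        push_cast; ring
      rw [e]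
      apply h.triv
      rw [norm_mul, norm_pow, norm_p', hz, ← mul_pow,
        inv_mul_cancel₀ ppos.ne', one_pow]
  rw [← h1]
  exact IsPrimitiveRoot.orderOf _

lemma norm_natCast_C : ‖(p : ℂ_[p])‖ = (p : ℝ)⁻¹ := by
  have := norm_algebraMap' ℂ_[p] (p : ℚ_[p])
  rw [Padic.norm_p, map_natCast] at this
  exact this

lemma norm_root {ζ : ℂ_[p]} {n : ℕ} (hn : n ≠ 0) (h : ζ ^ n = 1) : ‖ζ‖ = 1 := by
  have h1 : ‖ζ‖ ^ n = 1 := by rw [← norm_pow, h, norm_one]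
  exact (pow_eq_one_iff_of_nonneg (norm_nonneg _) hn).1 h1

/-- lower bound for `‖ζ - 1‖` -/
lemma prim_bound {ζ : ℂ_[p]} {k : ℕ} (h : IsPrimitiveRoot ζ (p ^ (k + 1))) :
    (p : ℝ)⁻¹ ≤ ‖ζ - 1‖ ^ Nat.totient (p ^ (k + 1)) := by
  have hn : p ^ (k + 1) ≠ 0 := pow_ne_zero _ (Fact.out : p.Prime).ne_zero
  have hζ : ‖ζ‖ = 1 := norm_root hn h.pow_eq_one
  have h1 := Polynomial.cyclotomic_eq_prod_X_sub_primitiveRoots h
  have h2 := congrArg (Polynomial.eval 1) h1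
  rw [Polynomial.eval_one_cyclotomic_prime_pow, Polynomial.eval_prod] at h2
  simp only [Polynomial.eval_sub, Polynomial.eval_X, Polynomial.eval_C] at h2
  rw [← norm_natCast_C, h2, norm_prod, ← h.card_primitiveRoots, ← Finset.prod_const]
  apply Finset.prod_le_prod
  · intro μ _; exact norm_nonneg _
  · intro μ hμ
    have hμ' : μ ^ (p ^ (k + 1)) = 1 := (isPrimitiveRoot_of_mem_primitiveRoots hμ).pow_eq_one
    have : NeZero (p ^ (k + 1)) := ⟨hn⟩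
    obtain ⟨i, -, rfl⟩ := h.eq_pow_of_pow_eq_one hμ'
    rw [← mul_neg_geom_sum, norm_mul, norm_sub_rev]
    calc ‖ζ - 1‖ * ‖∑ j ∈ range i, ζ ^ j‖ ≤ ‖ζ - 1‖ * 1 := by
          apply mul_le_mul_of_nonneg_left _ (norm_nonneg _)
          apply IsUltrametricDist.norm_sum_le_of_forall_le_of_nonneg zero_le_one
          intro j _
          rw [norm_pow, hζ, one_pow]
      _ = _ := mul_one _

/-- product of `ψ(c (x-a)²) - 1` over the `a` of absolute value `p^(i+1)`, modulo `ℤ_p` -/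
def fac (ψ : AddChar ℚ_[p] ℂ_[p]) (c : ℚ_[p]) (i : ℕ) (x : ℚ_[p]) : ℂ_[p] :=
  ∏ j ∈ (range (p ^ (i + 1))).filter (Nat.Coprime (p ^ (i + 1))),
    (ψ (c * (x - j / (p : ℚ_[p]) ^ (i + 1)) ^ 2) - 1)

/-- the product over all `a` with `1 < |a| ≤ p^M`, modulo `ℤ_p` -/
def G (ψ : AddChar ℚ_[p] ℂ_[p]) (c : ℚ_[p]) (M : ℕ) (x : ℚ_[p]) : ℂ_[p] :=
  ∏ i ∈ range M, fac ψ c i x

lemma norm_nat_coprime {j i : ℕ} (h : Nat.Coprime (p ^ (i + 1)) j) : ‖(j : ℚ_[p])‖ = 1 := by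
  have h1 : Nat.Coprime p j := Nat.Coprime.coprime_dvd_left (dvd_pow_self p (Nat.succ_ne_zero i)) h
  have h2 : ¬ (p ∣ j) := ((Fact.out : p.Prime).coprime_iff_not_dvd).1 h1
  refine le_antisymm (by exact_mod_cast Padic.norm_int_le_one (p := p) (j : ℤ)) ?_
  by_contra h3
  push Not at h3
  have h4 : ‖((j : ℤ) : ℚ_[p])‖ < 1 := by exact_mod_cast h3
  rw [Padic.norm_intCast_lt_one_iff] at h4
  exact h2 (by exact_mod_cast h4)

lemma Std.fac_bound (h : Std ψ c) (i : ℕ) {x : ℚ_[p]} (hx : ‖x‖ ≤ 1) :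
    (p : ℝ)⁻¹ ≤ ‖fac ψ c i x‖ ^ (p ^ (i + 1)) := by
  set s := (range (p ^ (i + 1))).filter (Nat.Coprime (p ^ (i + 1))) with hs
  have hcard : s.card = Nat.totient (p ^ (i + 1)) := rfl
  have hpos : 0 < Nat.totient (p ^ (i + 1)) :=
    Nat.totient_pos.2 (pow_pos (Fact.out : p.Prime).pos _)
  have htot : Nat.totient (p ^ ((2 * i + 1) + 1)) = p ^ (i + 1) * Nat.totient (p ^ (i + 1)) := by
    rw [Nat.totient_prime_pow_succ Fact.out, Nat.totient_prime_pow_succ Fact.out]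
    ring
  have hterm : ∀ j ∈ s, (p : ℝ)⁻¹ ≤
      ‖ψ (c * (x - j / (p : ℚ_[p]) ^ (i + 1)) ^ 2) - 1‖ ^
        (p ^ (i + 1) * Nat.totient (p ^ (i + 1))) := by
    intro j hj
    rw [← htot]
    apply prim_bound
    apply h.prim
    have hj1 : ‖(j : ℚ_[p])‖ = 1 := norm_nat_coprime (Finset.mem_filter.1 hj).2
    have hj2 : ‖(j : ℚ_[p]) / (p : ℚ_[p]) ^ (i + 1)‖ = (p : ℝ) ^ (i + 1) := by
      rw [norm_div, norm_pow, norm_p', hj1, inv_pow, one_div, inv_inv]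
    have hlt : ‖x‖ < ‖(j : ℚ_[p]) / (p : ℚ_[p]) ^ (i + 1)‖ := by
      rw [hj2]
      exact hx.trans_lt (one_lt_pow₀ (one_lt_p (p := p)) (Nat.succ_ne_zero i))
    have hsub : ‖x - (j : ℚ_[p]) / (p : ℚ_[p]) ^ (i + 1)‖ = (p : ℝ) ^ (i + 1) := by
      rw [← hj2, norm_sub_rev]
      rw [sub_eq_add_neg]
      rw [← norm_neg x] at hlt
      exact IsUltrametricDist.norm_add_eq_max_of_norm_ne_norm hlt.ne' |>.trans
        (max_eq_left hlt.le)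
    rw [norm_pow, hsub, ← pow_mul]
    congr 1
    ring
  have h1 : ((p : ℝ)⁻¹) ^ (Nat.totient (p ^ (i + 1))) ≤
      (‖fac ψ c i x‖ ^ (p ^ (i + 1))) ^ (Nat.totient (p ^ (i + 1))) := by
    unfold fac
    rw [norm_prod, ← pow_mul, ← Finset.prod_pow, ← hcard, ← Finset.prod_const]
    apply Finset.prod_le_prod
    · intro j _; exact inv_nonneg.2 ppos.le
    · intro j hj; exact hterm j hj
  exact le_of_pow_le_pow_left₀ hpos.ne' (by positivity) h1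

lemma Std.G_bound (h : Std ψ c) (M : ℕ) {x : ℚ_[p]} (hx : ‖x‖ ≤ 1) :
    (p : ℝ)⁻¹ ≤ ‖G ψ c M x‖ := by
  have hp2 := (Fact.out : p.Prime).two_le
  have hp1 : (p : ℝ)⁻¹ ≤ 1 := (inv_lt_one_of_one_lt₀ (one_lt_p (p := p))).le
  have hp0 : (0 : ℝ) < (p : ℝ)⁻¹ := inv_pos.2 ppos
  have key : ∀ M : ℕ, ((p : ℝ)⁻¹) ^ (p ^ M - 1) ≤ ‖G ψ c M x‖ ^ (p ^ M) := by
    intro M
    induction M with
    | zero => simp [G]
    | succ M ih =>
      have e : G ψ c (M + 1) x = G ψ c M x * fac ψ c M x := by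
        unfold G; rw [Finset.prod_range_succ]
      have hpM : 1 ≤ p ^ M := Nat.one_le_pow _ _ (by omega)
      rw [e, norm_mul, mul_pow]
      calc ((p : ℝ)⁻¹) ^ (p ^ (M + 1) - 1) ≤ ((p : ℝ)⁻¹) ^ ((p ^ M - 1) * p + 1) := by
            apply pow_le_pow_of_le_one hp0.le hp1
            rw [pow_succ, Nat.sub_mul, one_mul]
            have : p ≤ p ^ M * p := Nat.le_mul_of_pos_left p hpM
            omega
        _ = (((p : ℝ)⁻¹) ^ (p ^ M - 1)) ^ p * (p : ℝ)⁻¹ := by rw [pow_succ, pow_mul]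
        _ ≤ (‖G ψ c M x‖ ^ (p ^ M)) ^ p * ‖fac ψ c M x‖ ^ (p ^ (M + 1)) := by
            apply mul_le_mul (pow_le_pow_left₀ (by positivity) ih _) (h.fac_bound M hx) hp0.le
            positivity
        _ = ‖G ψ c M x‖ ^ (p ^ (M + 1)) * ‖fac ψ c M x‖ ^ (p ^ (M + 1)) := by
            rw [← pow_mul, ← pow_succ]
  have h1 := key M
  have hpM : p ^ M ≠ 0 := pow_ne_zero _ (by omega)
  apply le_of_pow_le_pow_left₀ hpM (norm_nonneg _)
  refine le_trans ?_ h1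
  exact pow_le_pow_of_le_one hp0.le hp1 (Nat.sub_le _ _)

lemma Std.G_zero (h : Std ψ c) {M : ℕ} {x : ℚ_[p]} (hx : 1 < ‖x‖) (hx' : ‖x‖ ≤ (p : ℝ) ^ M) :
    G ψ c M x = 0 := by
  have hx0 : x ≠ 0 := by rintro rfl; rw [norm_zero] at hx; linarith
  obtain ⟨n, hn⟩ : ∃ n : ℤ, ‖x‖ = (p : ℝ) ^ n := ⟨-x.valuation, Padic.norm_eq_zpow_neg_valuation hx0⟩
  have hn1 : 1 ≤ n := by
    by_contra hlt
    push Not at hlt
    rw [hn] at hx
    have : (p : ℝ) ^ n ≤ 1 := zpow_le_one_of_nonpos₀ (one_lt_p (p := p)).le (by omega)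
    linarith
  have hnM : n ≤ M := by
    by_contra hlt
    push Not at hlt
    rw [hn] at hx'
    have : (p : ℝ) ^ (M : ℤ) < (p : ℝ) ^ n := zpow_lt_zpow_right₀ (one_lt_p (p := p)) hlt
    rw [zpow_natCast] at this
    linarith
  obtain ⟨i, hi⟩ : ∃ i : ℕ, n = ((i + 1 : ℕ) : ℤ) := ⟨(n - 1).toNat, by omega⟩
  have hxi : ‖x‖ = (p : ℝ) ^ (i + 1) := by rw [hn, hi, zpow_natCast]
  have hu : ‖(p : ℚ_[p]) ^ (i + 1) * x‖ = 1 := by
    rw [norm_mul, norm_pow, norm_p', hxi, ← mul_pow, inv_mul_cancel₀ ppos.ne', one_pow]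
  obtain ⟨j, hj, hj'⟩ := exists_nat_approx (i + 1) _ hu.le
  have hjn : ‖(j : ℚ_[p])‖ = 1 := by
    have e : (j : ℚ_[p]) = (p : ℚ_[p]) ^ (i + 1) * x - ((p : ℚ_[p]) ^ (i + 1) * x - j) := by ring
    have hlt : ‖(p : ℚ_[p]) ^ (i + 1) * x - j‖ < ‖(p : ℚ_[p]) ^ (i + 1) * x‖ := by
      rw [hu]
      refine hj'.trans_lt ?_
      exact zpow_lt_one_of_neg₀ (one_lt_p (p := p)) (by push_cast; omega)
    rw [e, sub_eq_add_neg, ← hu]
    rw [← norm_neg ((p : ℚ_[p]) ^ (i + 1) * x - j)] at hlt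
    exact (IsUltrametricDist.norm_add_eq_max_of_norm_ne_norm hlt.ne').trans
      (max_eq_left hlt.le)
  have hcop : Nat.Coprime (p ^ (i + 1)) j := by
    apply Nat.Coprime.pow_left
    rw [(Fact.out : p.Prime).coprime_iff_not_dvd]
    intro hd
    have : ‖((j : ℤ) : ℚ_[p])‖ < 1 := by
      rw [Padic.norm_intCast_lt_one_iff]
      exact_mod_cast hd
    have h2 : ‖((j : ℤ) : ℚ_[p])‖ = 1 := by exact_mod_cast hjn
    linarith
  unfold G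
  apply Finset.prod_eq_zero (Finset.mem_range.2 (show i < M by omega))
  unfold fac
  apply Finset.prod_eq_zero (Finset.mem_filter.2 ⟨Finset.mem_range.2 hj, hcop⟩)
  rw [sub_eq_zero]
  apply h.triv
  rw [norm_pow]
  apply pow_le_one₀ (norm_nonneg _)
  have e : x - (j : ℚ_[p]) / (p : ℚ_[p]) ^ (i + 1) =
      ((p : ℚ_[p]) ^ (i + 1) * x - j) / (p : ℚ_[p]) ^ (i + 1) := by
    have := pQ_ne (p := p)
    field_simp
  rw [e, norm_div, norm_pow, norm_p']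
  apply div_le_one_of_le₀ _ (by positivity)
  rwa [_root_.zpow_neg, zpow_natCast, ← inv_pow] at hj'

/-- sum of characters -/
def D (ψ : AddChar ℚ_[p] ℂ_[p]) (c : ℚ_[p]) (m : ℕ) (x : ℚ_[p]) : ℂ_[p] :=
  ∑ k ∈ range (p ^ m), ψ (c * (k / (p : ℚ_[p]) ^ m * x))

lemma Std.ne_one' (h : Std ψ c) {v : ℚ_[p]} (hv : 1 < ‖v‖) : ψ (c * v) ≠ 1 := by
  have hx0 : v ≠ 0 := by rintro rfl; rw [norm_zero] at hv; linarith
  obtain ⟨n, hn⟩ : ∃ n : ℤ, ‖v‖ = (p : ℝ) ^ n := ⟨-v.valuation, Padic.norm_eq_zpow_neg_valuation hx0⟩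
  have hn1 : 1 ≤ n := by
    by_contra hlt
    push Not at hlt
    rw [hn] at hv
    have : (p : ℝ) ^ n ≤ 1 := zpow_le_one_of_nonpos₀ (one_lt_p (p := p)).le (by omega)
    linarith
  obtain ⟨i, hi⟩ : ∃ i : ℕ, n = ((i + 1 : ℕ) : ℤ) := ⟨(n - 1).toNat, by omega⟩
  have hxi : ‖v‖ = (p : ℝ) ^ (i + 1) := by rw [hn, hi, zpow_natCast]
  exact (h.prim hxi).ne_one (one_lt_pow₀ (Fact.out : p.Prime).one_lt (Nat.succ_ne_zero i))

lemma D_eq (m : ℕ) (x : ℚ_[p]) :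
    D ψ c m x = ∑ k ∈ range (p ^ m), ψ (c * (x / (p : ℚ_[p]) ^ m)) ^ k := by
  unfold D
  refine Finset.sum_congr rfl fun k _ => ?_
  rw [← map_natMul]
  congr 1
  ring

lemma Std.D_small (h : Std ψ c) {m : ℕ} {x : ℚ_[p]} (hx : ‖x‖ ≤ (p : ℝ) ^ (-(m : ℤ))) :
    D ψ c m x = (p : ℂ_[p]) ^ m := by
  rw [D_eq, h.triv]
  · simp
  · rw [norm_div, norm_pow, norm_p']
    apply div_le_one_of_le₀ _ (by positivity)
    rwa [_root_.zpow_neg, zpow_natCast, ← inv_pow] at hx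

lemma Std.D_zero (h : Std ψ c) {m : ℕ} {x : ℚ_[p]} (hx : ‖x‖ ≤ 1)
    (hx' : ¬ ‖x‖ ≤ (p : ℝ) ^ (-(m : ℤ))) : D ψ c m x = 0 := by
  rw [D_eq]
  have h1 : ψ (c * (x / (p : ℚ_[p]) ^ m)) ≠ 1 := by
    apply h.ne_one'
    rw [norm_div, norm_pow, norm_p', one_lt_div (pow_pos (inv_pos.2 ppos) _)]
    rwa [_root_.zpow_neg, zpow_natCast, ← inv_pow, not_le] at hx'
  have h2 : ψ (c * (x / (p : ℚ_[p]) ^ m)) ^ (p ^ m) = 1 := by
    rw [← map_natMul]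
    have e : ((p ^ m : ℕ) : ℚ_[p]) * (c * (x / (p : ℚ_[p]) ^ m)) = c * x := by
      have := pQ_ne (p := p)
      push_cast
      field_simp
    rw [e]
    exact h.triv x hx
  have h3 := geom_sum_mul (ψ (c * (x / (p : ℚ_[p]) ^ m))) (p ^ m)
  rw [h2, sub_self] at h3
  rcases mul_eq_zero.1 h3 with h4 | h4
  · exact h4
  · exact absurd (sub_eq_zero.1 h4) h1

/-- values of a smooth character have norm `1` -/
lemma norm_char {ψ : AddChar ℚ_[p] ℂ_[p]} (hψ : IsLocallyConstant ψ) (x : ℚ_[p]) : ‖ψ x‖ = 1 := by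
  by_cases hne : ψ = 1
  · rw [hne]; simp
  obtain ⟨c, hc0, hc⟩ := exists_std hψ hne
  obtain ⟨k, hk⟩ := pow_unbounded_of_one_lt ‖x / c‖ (one_lt_p (p := p))
  apply norm_root (n := p ^ k) (pow_ne_zero _ (Fact.out : p.Prime).ne_zero)
  rw [← map_natMul]
  have e : ((p ^ k : ℕ) : ℚ_[p]) * x = c * ((p : ℚ_[p]) ^ k * (x / c)) := by
    push_cast
    field_simp
  rw [e]
  apply hc.triv
  rw [norm_mul, norm_pow, norm_p', inv_pow, inv_mul_le_iff₀ (by have := ppos (p := p); positivity),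
    mul_one]
  exact hk.le

end Pool.Agent.R316.HN
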