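import Mathlib

/-!
# Norms on the Schwartz space of `ℚ_p^d` attached to points of the Lagrangian Grassmannian

Definitions for MP_080eaf_nt.
-/

set_option autoImplicit false

noncomputable section

open Matrix

namespace Pool.Agent.R316.HN

variable (p : ℕ) [Fact p.Prime] (d : ℕ)

/-- `ℚ_p^d` -/
abbrev V : Type := Fin d → ℚ_[p]

/-- pairs `w = (a, b)` of vectors of `ℚ_p^d`, as row vectors of length `2d` -/
abbrev W : Type := Fin d ⊕ Fin d → ℚ_[p]

/-- The locally constant compactly supported functions `ℚ_p^d → ℂ_p`, as a subspace of the space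
of all functions. -/
def SSub : Submodule ℂ_[p] (V p d → ℂ_[p]) where
  carrier := {f | IsLocallyConstant f ∧ HasCompactSupport f}
  add_mem' := by
    rintro f g ⟨hf, hf'⟩ ⟨hg, hg'⟩
    exact ⟨hf.add hg, hf'.add hg'⟩
  zero_mem' := ⟨IsLocallyConstant.const 0, HasCompactSupport.zero⟩
  smul_mem' := by
    rintro c f ⟨hf, hf'⟩
    exact ⟨(IsLocallyConstant.const c).mul hf, hf'.mul_left⟩

/-- The space `𝒮` of locally constant compactly supported functions `ℚ_p^d → ℂ_p`. -/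
def S : Type := {f : V p d → ℂ_[p] // IsLocallyConstant f ∧ HasCompactSupport f}

instance instAddCommGroupS : AddCommGroup (S p d) := Submodule.addCommGroup (SSub p d)

instance instModuleS : Module ℂ_[p] (S p d) := Submodule.module (SSub p d)

variable {p d}

lemma S_ext {f g : S p d} (h : ∀ x, f.1 x = g.1 x) : f = g := Subtype.ext (funext h)

/-- evaluation at a point -/
def ev (x : V p d) : S p d →ₗ[ℂ_[p]] ℂ_[p] where
  toFun f := f.1 x
  map_add' _ _ := rfl
  map_smul' _ _ := rfl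

lemma sum_val {ι : Type} (s : Finset ι) (F : ι → S p d) (x : V p d) :
    (∑ i ∈ s, F i).1 x = ∑ i ∈ s, (F i).1 x := map_sum (ev x) F s

/-- multiplication of an element of `𝒮` by a locally constant function -/
def mulS (φ : V p d → ℂ_[p]) (hφ : IsLocallyConstant φ) : S p d →ₗ[ℂ_[p]] S p d where
  toFun f := ⟨fun x => φ x * f.1 x, hφ.mul f.2.1, f.2.2.mul_left⟩
  map_add' _ _ := S_ext fun _ => mul_add _ _ _
  map_smul' _ _ := S_ext fun _ => mul_left_comm _ _ _

/-- translation `f ↦ f (· + a)` on `𝒮` -/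
def tau (a : V p d) : S p d →ₗ[ℂ_[p]] S p d where
  toFun f := ⟨fun x => f.1 (x + a), f.2.1.comp_continuous (by fun_prop),
    f.2.2.comp_homeomorph (Homeomorph.addRight a)⟩
  map_add' _ _ := S_ext fun _ => rfl
  map_smul' _ _ := S_ext fun _ => rfl

/-- the first component `a` of `w = (a, b)` -/
def fstV (w : W p d) : V p d := fun i => w (Sum.inl i)

/-- the second component `b` of `w = (a, b)` -/
def sndV (w : W p d) : V p d := fun i => w (Sum.inr i)

lemma lc_indicator {s : Set (V p d)} (hs : IsClopen s) :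
    IsLocallyConstant (s.indicator (1 : V p d → ℂ_[p])) := by
  rw [IsLocallyConstant.iff_eventually_eq]
  intro x
  by_cases hx : x ∈ s
  · filter_upwards [hs.isOpen.mem_nhds hx] with y hy
    simp [hx, hy]
  · filter_upwards [hs.compl.isOpen.mem_nhds hx] with y hy
    simp [hx, show y ∉ s from hy]

lemma hcs_indicator {s : Set (V p d)} (hs : IsCompact s) :
    HasCompactSupport (s.indicator (1 : V p d → ℂ_[p])) :=
  HasCompactSupport.intro hs fun _ hx => Set.indicator_of_notMem hx _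

lemma unit_ball_eq : {x : V p d | ∀ i, ‖x i‖ ≤ 1} = Metric.closedBall 0 1 := by
  ext x
  simp [pi_norm_le_iff_of_nonneg]

/-- a smooth (locally constant) character composed with a continuous function is locally constant -/
lemma lc_comp {ψ : AddChar ℚ_[p] ℂ_[p]} (hψ : IsLocallyConstant ψ) {u : V p d → ℚ_[p]}
    (hu : Continuous u) : IsLocallyConstant (fun x => ψ (u x)) := hψ.comp_continuous hu

lemma rho_mem (ψ : AddChar ℚ_[p] ℂ_[p]) (hψ : IsLocallyConstant ψ) (w : W p d) (t : ℚ_[p])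
    (f : S p d) : IsLocallyConstant (fun x : V p d =>
      ψ (t + (fstV w ⬝ᵥ sndV w) / 2) * ψ (sndV w ⬝ᵥ x) * f.1 (x + fstV w)) ∧
    HasCompactSupport (fun x : V p d =>
      ψ (t + (fstV w ⬝ᵥ sndV w) / 2) * ψ (sndV w ⬝ᵥ x) * f.1 (x + fstV w)) :=
  (mulS (fun x => ψ (t + (fstV w ⬝ᵥ sndV w) / 2) * ψ (sndV w ⬝ᵥ x))
      ((IsLocallyConstant.const _).mul (lc_comp hψ (by fun_prop))) (tau (fstV w) f)).2

/-- The action of `[w, t] = [a, b, t]` of the Heisenberg group on `𝒮`: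
`(ρ([a,b,t]) f)(x) = ψ(t + ½ a·b) ψ(b·x) f(x + a)`. -/
def rho (ψ : AddChar ℚ_[p] ℂ_[p]) (hψ : IsLocallyConstant ψ) (w : W p d) (t : ℚ_[p]) (f : S p d) :
    S p d :=
  ⟨fun x => ψ (t + (fstV w ⬝ᵥ sndV w) / 2) * ψ (sndV w ⬝ᵥ x) * f.1 (x + fstV w),
    rho_mem ψ hψ w t f⟩

variable (p d)

/-- The group `Sp_{2d}(ℚ_p)` -/
abbrev Sp : Type := symplecticGroup (Fin d) ℚ_[p]

/-- the Siegel parabolic `P` of block upper triangular symplectic matrices -/
def Par : Subgroup (Sp p d) where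
  carrier := {g | g.1.toBlocks₂₁ = 0}
  mul_mem' := by
    intro a b ha hb
    simp only [Set.mem_ofPred_eq] at ha hb ⊢
    rw [show (a * b).1 = a.1 * b.1 from rfl, ← fromBlocks_toBlocks a.1,
      ← fromBlocks_toBlocks b.1, fromBlocks_multiply, toBlocks_fromBlocks₂₁,
      ha, hb]
    simp
  one_mem' := by
    simp only [Set.mem_ofPred_eq]
    rw [show (1 : Sp p d).1 = 1 from rfl, ← fromBlocks_one, toBlocks_fromBlocks₂₁]
  inv_mem' := by
    intro a ha
    simp only [Set.mem_ofPred_eq] at ha ⊢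
    rw [SymplecticGroup.coe_inv, ← fromBlocks_toBlocks a.1, J,
      fromBlocks_neg, fromBlocks_transpose, fromBlocks_multiply, fromBlocks_multiply,
      toBlocks_fromBlocks₂₁, ha]
    simp

/-- `X = P \ Sp_{2d}(ℚ_p)`, the Grassmannian of maximal isotropic subspaces -/
def X : Type := Quotient (QuotientGroup.rightRel (Par p d))

/-- the quotient of the `p`-adic topology -/
instance instTopX : TopologicalSpace (X p d) := instTopologicalSpaceQuotient

variable {p d}

/-- the class `P g` of `g` -/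
def cl (g : Sp p d) : X p d := Quotient.mk _ g

variable (p d)

lemma oneS_mem :
    IsLocallyConstant (Set.indicator {x : V p d | ∀ i, ‖x i‖ ≤ 1} (1 : V p d → ℂ_[p])) ∧
    HasCompactSupport (Set.indicator {x : V p d | ∀ i, ‖x i‖ ≤ 1} (1 : V p d → ℂ_[p])) :=
  ⟨lc_indicator (by rw [unit_ball_eq]; exact IsUltrametricDist.isClopen_closedBall _ one_ne_zero),
    hcs_indicator (by rw [unit_ball_eq]; exact isCompact_closedBall _ _)⟩

/-- the function `1_{ℤ_p^d}` -/
def oneS : S p d := ⟨Set.indicator {x : V p d | ∀ i, ‖x i‖ ≤ 1} 1, oneS_mem p d⟩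

variable {p d}

/-- `T` is an intertwining operator for `g`: `T ρ([wg, t]) = ρ([w, t]) T`. -/
def Intertwines (ψ : AddChar ℚ_[p] ℂ_[p]) (hψ : IsLocallyConstant ψ) (g : Sp p d)
    (T : S p d ≃ₗ[ℂ_[p]] S p d) : Prop :=
  ∀ (w : W p d) (t : ℚ_[p]) (f : S p d),
    T (rho ψ hψ (w ᵥ* g.1) t f) = rho ψ hψ w t (T f)

/-- `ν` is the norm `‖·‖_α`, `α = P g`: a positive multiple of `f ↦ sup_x |(T f)(x)|` for an
intertwining operator `T` for `g`, with `ν(1_{ℤ_p^d}) = 1`. -/
def IsNormAt (ψ : AddChar ℚ_[p] ℂ_[p]) (hψ : IsLocallyConstant ψ) (g : Sp p d)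
    (ν : S p d → ℝ) : Prop :=
  ∃ T : S p d ≃ₗ[ℂ_[p]] S p d, Intertwines ψ hψ g T ∧ ∃ c : ℝ, 0 < c ∧
    (∀ f, ν f = c * ⨆ x, ‖(T f).1 x‖) ∧ ν (oneS p d) = 1

/-- the norm `‖f‖_I = sup_{α ∈ I} ‖f‖_α` -/
def normOn (N : X p d → S p d → ℝ) (I : Set (X p d)) (f : S p d) : ENNReal :=
  ⨆ α ∈ I, ENNReal.ofReal (N α f)

/-- `s` is a non-archimedean seminorm on the `ℂ_p`-vector space `𝒮` -/
def IsSeminorm (s : S p d → ℝ) : Prop :=
  (∀ f, 0 ≤ s f) ∧ (∀ f g, s (f + g) ≤ max (s f) (s g)) ∧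
    ∀ (r : ℂ_[p]) (f : S p d), s (r • f) = ‖r‖ * s f

/-- the seminorm `s` is dominated by `n`: `s ≤ c n` for some constant `c` -/
def Dominated (s : S p d → ℝ) (n : S p d → ENNReal) : Prop :=
  ∃ c : NNReal, ∀ f, ENNReal.ofReal (s f) ≤ c * n f

end Pool.Agent.R316.HN
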