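import Pool.Agent.R316.HN.Main

set_option autoImplicit false

noncomputable section

open Matrix Finset

namespace Pool.Agent.R316.HN

variable {p : ℕ} [Fact p.Prime] {d : ℕ}
variable {ψ : AddChar ℚ_[p] ℂ_[p]} {c : ℚ_[p]} {hψ : IsLocallyConstant ψ}

/-- the seminorm `f ↦ |f(0)|` -/
def s0 (f : S p d) : ℝ := ‖f.1 0‖

lemma s0_apply (f : S p d) : s0 f = ‖f.1 0‖ := rfl

lemma s0_ne : (s0 : S p d → ℝ) ≠ 0 := by
  intro h
  have h1 := congrFun h (oneS p d)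
  rw [s0_apply, one_apply_of (x := (0 : V p d)) (by rw [norm_zero]; exact zero_le_one)] at h1
  simp at h1

lemma s0_semi : IsSeminorm (s0 : S p d → ℝ) := by
  refine ⟨fun f => norm_nonneg _, fun f g => ?_, fun r f => norm_mul _ _⟩
  rw [s0_apply, s0_apply, s0_apply]
  exact IsUltrametricDist.norm_add_le_max (f.1 0) (g.1 0)

/-! ### elementary properties of the norms -/

lemma IsNormAt.nonneg {g : Sp p d} {ν : S p d → ℝ} (h : IsNormAt ψ hψ g ν) (f : S p d) :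
    0 ≤ ν f := by
  obtain ⟨T, -, C, hC, hν, -⟩ := h
  rw [hν]
  exact mul_nonneg hC.le (Real.iSup_nonneg fun x => norm_nonneg _)

lemma IsNormAt.add {g : Sp p d} {ν : S p d → ℝ} (h : IsNormAt ψ hψ g ν) (f f' : S p d) :
    ν (f + f') ≤ max (ν f) (ν f') := by
  obtain ⟨T, -, C, hC, hν, -⟩ := h
  rw [hν, hν, hν, ← mul_max_of_nonneg _ _ hC.le]
  apply mul_le_mul_of_nonneg_left _ hC.le
  apply ciSup_le
  intro x
  rw [map_add]
  exact (IsUltrametricDist.norm_add_le_max _ _).trans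
    (max_le_max (le_ciSup (bdd (T f)) x) (le_ciSup (bdd (T f')) x))

lemma IsNormAt.smul {g : Sp p d} {ν : S p d → ℝ} (h : IsNormAt ψ hψ g ν) (r : ℂ_[p])
    (f : S p d) : ν (r • f) = ‖r‖ * ν f := by
  obtain ⟨T, -, C, hC, hν, -⟩ := h
  rw [hν, hν, mul_left_comm, Real.mul_iSup_of_nonneg (norm_nonneg _)]
  congr 2
  funext x
  rw [map_smul]
  exact norm_mul _ _

lemma IsNormAt.rho_eq {g : Sp p d} {ν : S p d → ℝ} (h : IsNormAt ψ hψ g ν) (w : W p d)
    (t : ℚ_[p]) (f : S p d) : ν (rho ψ hψ w t f) = ν f := by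
  obtain ⟨T, hT, C, hC, hν, -⟩ := h
  rw [hν, hν]
  congr 1
  set w' : W p d := w ᵥ* g⁻¹.1 with hw
  have hwg : w' ᵥ* g.1 = w := by
    rw [hw, vecMul_vecMul]
    have : g⁻¹.1 * g.1 = (g⁻¹ * g).1 := rfl
    rw [this, inv_mul_cancel]
    exact vecMul_one _
  rw [← hwg, hT]
  have e : ∀ x, ‖(rho ψ hψ w' t (T f)).1 x‖ = ‖(T f).1 (x + fstV w')‖ := by
    intro x
    rw [rho_apply, norm_mul, norm_mul, norm_char hψ, norm_char hψ, one_mul, one_mul]
  simp only [e]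
  exact (Equiv.addRight (fstV w')).iSup_comp (g := fun x => ‖(T f).1 x‖)

lemma IsNormAt.tau_eq {g : Sp p d} {ν : S p d → ℝ} (h : IsNormAt ψ hψ g ν) (a : V p d)
    (f : S p d) : ν (tau a f) = ν f := by
  rw [← h.rho_eq (Sum.elim a (0 : V p d)) 0 f]
  congr 1
  apply S_ext
  intro x
  rw [rho_apply, fstV_elim, sndV_elim, dotProduct_zero, zero_dotProduct]
  simp only [zero_div, add_zero, AddChar.map_zero_eq_one, one_mul]
  rfl

lemma IsNormAt.char_eq {g : Sp p d} {ν : S p d → ℝ} (h : IsNormAt ψ hψ g ν) (y : V p d)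
    (f : S p d) : ν (ml (E ψ hψ c 0 y) f) = ν f := by
  rw [← h.rho_eq (Sum.elim (0 : V p d) y) 0 f]
  congr 1
  apply S_ext
  intro x
  rw [rho_apply, ml_apply, E_apply, fstV_elim, sndV_elim, zero_dotProduct]
  simp

lemma IsNormAt.sum_le {g : Sp p d} {ν : S p d → ℝ} (h : IsNormAt ψ hψ g ν) {ι : Type}
    (s : Finset ι) (F : ι → S p d) {B : ℝ} (hB : 0 ≤ B) (hF : ∀ i ∈ s, ν (F i) ≤ B) :
    ν (∑ i ∈ s, F i) ≤ B := by
  classical
  induction s using Finset.induction_on with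
  | empty =>
    have h0 := h.smul 0 (oneS p d)
    rw [norm_zero, zero_mul, zero_smul] at h0
    rw [Finset.sum_empty, h0]
    exact hB
  | insert a s ha ih =>
    rw [Finset.sum_insert ha]
    exact (h.add _ _).trans (max_le (hF a (Finset.mem_insert_self a s))
      (ih fun i hi => hF i (Finset.mem_insert_of_mem hi)))

lemma DA_one (hc : Std ψ c) (m : ℕ) :
    ml (∏ j, DA ψ hψ c m j) (oneS p d) = (((p : ℂ_[p]) ^ m) ^ d) • ind 0 m := by
  apply S_ext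
  intro x
  have hr : ((((p : ℂ_[p]) ^ m) ^ d) • ind 0 m : S p d).1 x =
    (((p : ℂ_[p]) ^ m) ^ d) * (ind (0 : V p d) m).1 x := rfl
  rw [hr, ml_apply, lc_prod_apply]
  by_cases hx : ‖x‖ ≤ (p : ℝ) ^ (-(m : ℤ))
  · have hxj : ∀ j, ‖x j‖ ≤ (p : ℝ) ^ (-(m : ℤ)) := fun j => (norm_le_pi_norm x j).trans hx
    rw [ind_apply_of (by rwa [sub_zero]), one_apply_of (hx.trans
        (zpow_le_one_of_nonpos₀ (one_lt_p (p := p)).le (by simp))),
      Finset.prod_congr rfl (fun j _ => DA_apply (hψ := hψ) (c := c) m j x),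
      Finset.prod_congr rfl (fun j _ => hc.D_small (hxj j))]
    simp only [Finset.prod_const, Finset.card_univ, Fintype.card_fin]
  · rw [ind_apply_of_not (by rwa [sub_zero]), mul_zero]
    by_cases hx1 : ‖x‖ ≤ 1
    · rw [pi_norm_le_iff_of_nonneg (rpos _).le] at hx
      push Not at hx
      obtain ⟨j, hj⟩ := hx
      rw [Finset.prod_eq_zero (i := j) (f := fun j => DA ψ hψ c m j x) (Finset.mem_univ j),
        zero_mul]
      rw [DA_apply]
      exact hc.D_zero ((norm_le_pi_norm x j).trans hx1) (not_le.2 hj)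
    · rw [one_apply_of_not hx1, mul_zero]

/-- `‖f‖_α` is bounded independently of `α` -/
lemma exists_bound (hc : Std ψ c) (f : S p d) : ∃ B : ℝ, 0 ≤ B ∧ ∀ (g : Sp p d) (ν : S p d → ℝ),
    IsNormAt ψ hψ g ν → ν f ≤ B := by
  obtain ⟨m, hm⟩ := exists_inv f
  obtain ⟨F, hF⟩ := decomp f m hm
  have hB : (0 : ℝ) ≤ (∑ a ∈ F, ‖f.1 a‖) * ((p : ℝ) ^ m) ^ d :=
    mul_nonneg (Finset.sum_nonneg fun a _ => norm_nonneg _) (pow_nonneg (pow_nonneg ppos.le _) _)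
  refine ⟨(∑ a ∈ F, ‖f.1 a‖) * ((p : ℝ) ^ m) ^ d, hB, fun g ν h => ?_⟩
  have h1 : ν (oneS p d) = 1 := by
    obtain ⟨T, -, C, hC, hν, h1⟩ := h; exact h1
  have h2 : ∀ s : Finset (Fin d), ∀ y : V p d,
      ν (ml ((∏ j ∈ s, DA ψ hψ c m j) * E ψ hψ c 0 y) (oneS p d)) ≤ 1 := by
    classical
    intro s
    induction s using Finset.induction_on with
    | empty =>
      intro y
      rw [Finset.prod_empty, one_mul, h.char_eq, h1]
    | insert a s ha ih =>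
      intro y
      rw [Finset.prod_insert ha, mul_comm (DA ψ hψ c m a), mul_assoc]
      unfold DA at ih ⊢
      rw [Finset.sum_mul, Finset.mul_sum]
      have e : ml (∑ i ∈ range (p ^ m), (∏ j ∈ s, ∑ k ∈ range (p ^ m),
            E ψ hψ c 0 (Pi.single j (c * (k / (p : ℚ_[p]) ^ m)))) *
            (E ψ hψ c 0 (Pi.single a (c * (i / (p : ℚ_[p]) ^ m))) * E ψ hψ c 0 y)) (oneS p d) =
          ∑ i ∈ range (p ^ m), ml ((∏ j ∈ s, ∑ k ∈ range (p ^ m),
            E ψ hψ c 0 (Pi.single j (c * (k / (p : ℚ_[p]) ^ m)))) *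
            (E ψ hψ c 0 (Pi.single a (c * (i / (p : ℚ_[p]) ^ m))) * E ψ hψ c 0 y)) (oneS p d) := by
        rw [← mlR_apply, map_sum]
        rfl
      rw [e]
      apply h.sum_le _ _ zero_le_one
      intro i _
      rw [E_mul, add_zero]
      exact ih _
  have h3 : ν (ind 0 m) ≤ ((p : ℝ) ^ m) ^ d := by
    have h4 := h2 Finset.univ 0
    rw [E_zero, mul_one, DA_one hc, h.smul, norm_pow, norm_pow, norm_natCast_C] at h4
    have h5 : (0 : ℝ) < ((p : ℝ) ^ m) ^ d := pow_pos (pow_pos ppos _) _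
    calc ν (ind 0 m) = ((p : ℝ) ^ m) ^ d * (((p : ℝ)⁻¹ ^ m) ^ d * ν (ind 0 m)) := by
          rw [inv_pow, inv_pow]; field_simp
      _ ≤ ((p : ℝ) ^ m) ^ d * 1 := mul_le_mul_of_nonneg_left h4 h5.le
      _ = _ := mul_one _
  conv_lhs => rw [hF]
  apply h.sum_le _ _ hB
  intro a ha
  rw [h.smul, ← tau_ind, h.tau_eq]
  apply mul_le_mul _ h3 (h.nonneg _) (Finset.sum_nonneg fun a _ => norm_nonneg _)
  exact Finset.single_le_sum (f := fun a => ‖f.1 a‖) (fun a _ => norm_nonneg _) ha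

lemma normOn_ne_top (hc : Std ψ c) {N : X p d → S p d → ℝ}
    (hN : ∀ g : Sp p d, IsNormAt ψ hψ g (N (cl g))) (I : Set (X p d)) (f : S p d) :
    normOn N I f ≠ ⊤ := by
  obtain ⟨B, -, hB⟩ := exists_bound (hψ := hψ) hc f
  apply ne_top_of_le_ne_top (ENNReal.ofReal_ne_top (r := B))
  unfold normOn
  apply iSup₂_le
  intro α _
  obtain ⟨g, rfl⟩ := exists_rep_cl α
  exact ENNReal.ofReal_le_ofReal (hB g _ (hN g))

lemma le_normOn (N : X p d → S p d → ℝ) {I : Set (X p d)} {α : X p d} (hα : α ∈ I) (f : S p d) :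
    ENNReal.ofReal (N α f) ≤ normOn N I f := le_iSup₂ (f := fun α _ => ENNReal.ofReal (N α f)) α hα

/-- the seminorm `|f(0)|` is dominated by the norm of `I₁` -/
lemma dom1 (hc : Std ψ c) {N : X p d → S p d → ℝ}
    (hN : ∀ g : Sp p d, IsNormAt ψ hψ g (N (cl g))) : Dominated s0 (normOn N (I1 c)) := by
  obtain ⟨J, hJ, h1⟩ := exists_J (hN (gA c 0))
  refine ⟨⟨(p : ℝ) ^ d, (pow_pos ppos d).le⟩, fun f => ?_⟩
  have hfin := normOn_ne_top hc hN (I1 c) f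
  have h2 : ∀ (m : Fin d → ℕ) (y : V p d),
      ‖J (ml (E ψ hψ c (fun j => (m j : ℚ_[p])) y) f)‖ ≤ (normOn N (I1 c) f).toReal := by
    intro m y
    have hm : ‖(fun j => (m j : ℚ_[p]) : V p d)‖ ≤ 1 := by
      rw [pi_norm_le_iff_of_nonneg zero_le_one]
      intro j
      exact_mod_cast Padic.norm_int_le_one (p := p) (m j : ℤ)
    refine (key_bound hJ h1 hc hm (hN _) y f).trans ?_
    rw [← ENNReal.ofReal_le_iff_le_toReal hfin]
    exact le_normOn N (gA_mem hm) f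
  have h3 := main_est hJ h1 hc hψ f ENNReal.toReal_nonneg h2
  rw [s0_apply]
  calc ENNReal.ofReal ‖f.1 0‖ ≤ ENNReal.ofReal ((p : ℝ) ^ d * (normOn N (I1 c) f).toReal) :=
        ENNReal.ofReal_le_ofReal h3
    _ = ENNReal.ofReal ((p : ℝ) ^ d) * normOn N (I1 c) f := by
        rw [ENNReal.ofReal_mul (pow_pos ppos d).le, ENNReal.ofReal_toReal hfin]
    _ = _ := by
        congr 1
        rw [ENNReal.ofReal, Real.toNNReal_of_nonneg (pow_pos ppos d).le]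
        rfl

/-- the seminorm `|f(0)|` is dominated by the norm of `I₂` -/
lemma dom2 (hc0 : c ≠ 0) (hc : Std ψ c) {N : X p d → S p d → ℝ}
    (hN : ∀ g : Sp p d, IsNormAt ψ hψ g (N (cl g))) : Dominated s0 (normOn N I2) := by
  obtain ⟨r, hr, h⟩ := base_bound hc0 hc (hN 1)
  refine ⟨⟨r, hr⟩, fun f => ?_⟩
  rw [s0_apply]
  calc ENNReal.ofReal ‖f.1 0‖ ≤ ENNReal.ofReal (r * N (cl 1) f) := ENNReal.ofReal_le_ofReal (h f)
    _ = ENNReal.ofReal r * ENNReal.ofReal (N (cl 1) f) := ENNReal.ofReal_mul hr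
    _ ≤ ENNReal.ofReal r * normOn N I2 f := by gcongr; exact le_normOn N (show cl 1 ∈ I2 from rfl) f
    _ = _ := by
        congr 1
        rw [ENNReal.ofReal, Real.toNNReal_of_nonneg hr]
        rfl

theorem main (p : ℕ) [Fact p.Prime] (d : ℕ) (hd : 1 ≤ d) (ψ : AddChar ℚ_[p] ℂ_[p])
    (hψ : IsLocallyConstant ψ) (hne : ψ ≠ 1) (N : X p d → S p d → ℝ)
    (hN : ∀ g : Sp p d, IsNormAt ψ hψ g (N (cl g))) :
    (∀ (I : Set (X p d)) (f : S p d), normOn N I f ≠ ⊤) ∧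
    ∃ I₁ I₂ : Set (X p d), I₁.Nonempty ∧ I₂.Nonempty ∧ IsClosed I₁ ∧ IsClosed I₂ ∧
      I₁ ∩ I₂ = ∅ ∧ ∃ s : S p d → ℝ, IsSeminorm s ∧ s ≠ 0 ∧
        Dominated s (normOn N I₁) ∧ Dominated s (normOn N I₂) := by
  obtain ⟨c, hc0, hc⟩ := exists_std hψ hne
  refine ⟨normOn_ne_top hc hN, I1 c, I2,
    ⟨_, gA_mem (m := 0) (by rw [norm_zero]; exact zero_le_one)⟩,
    ⟨cl 1, rfl⟩, isClosed_I1 c, isClosed_I2, Set.disjoint_iff_inter_eq_empty.1 (disjoint_I hd c),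
    s0, s0_semi, s0_ne, dom1 hc hN, dom2 hc0 hc hN⟩

end Pool.Agent.R316.HN
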