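import Pool.Agent.R316.HN.Weil

set_option autoImplicit false

noncomputable section

open Matrix Finset

namespace Pool.Agent.R316.HN

variable {p : ℕ} [Fact p.Prime] {d : ℕ}
variable {ψ : AddChar ℚ_[p] ℂ_[p]} {c : ℚ_[p]} {hψ : IsLocallyConstant ψ}
variable {I : S p d →ₗ[ℂ_[p]] ℂ_[p]}

/-! ### The Fourier transform -/

/-- multiplication by a power of `p` -/
def dil (m : ℤ) : V p d ≃ₜ V p d :=
  Homeomorph.smulOfNeZero ((p : ℚ_[p]) ^ (-m)) (zpow_ne_zero _ pQ_ne)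

lemma dil_apply (m : ℤ) (x : V p d) : dil m x = ((p : ℚ_[p]) ^ (-m)) • x := rfl

lemma compE_dil (m : ℤ) : compE (dil m) (oneS p d) = ind 0 m := by
  apply S_ext
  intro x
  rw [compE_apply, dil_apply]
  have e : ‖((p : ℚ_[p]) ^ (-m)) • x‖ = (p : ℝ) ^ m * ‖x‖ := by
    rw [norm_smul, Padic.norm_p_zpow, neg_neg]
  have h1 : ‖((p : ℚ_[p]) ^ (-m)) • x‖ ≤ 1 ↔ ‖x - 0‖ ≤ (p : ℝ) ^ (-m) := by
    rw [e, sub_zero, _root_.zpow_neg, ← one_div, le_div_iff₀' (rpos m)]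
  by_cases hx : ‖x - 0‖ ≤ (p : ℝ) ^ (-m)
  · rw [ind_apply_of hx, one_apply_of (h1.2 hx)]
  · rw [ind_apply_of_not hx, one_apply_of_not (fun h => hx (h1.1 h))]

lemma TInv.ind_ne (hI : TInv I) (h1 : I (oneS p d) = 1) (m : ℤ) : I (ind 0 m) ≠ 0 := by
  intro h
  have hl : TInv (I ∘ₗ (compE (dil m : V p d ≃ₜ V p d)).toLinearMap) := by
    intro a f
    show I (compE (dil m) (tau a f)) = I (compE (dil m) f)
    rw [← hI ((dil m).symm a) (compE (dil m) f)]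
    congr 1
    apply S_ext
    intro x
    show f.1 (dil m x + a) = f.1 (dil m (x + (dil m).symm a))
    have e : dil m (x + (dil m).symm a) = dil m x + dil m ((dil m).symm a) := by
      rw [dil_apply, dil_apply, dil_apply, smul_add]
    rw [e, Homeomorph.apply_symm_apply]
  have h0 : (I ∘ₗ (compE (dil m : V p d ≃ₜ V p d)).toLinearMap) (oneS p d) = 0 := by
    show I (compE (dil m) (oneS p d)) = 0
    rw [compE_dil, h]
  have h2 := hl.eq_zero h0
  have h3 := LinearMap.congr_fun h2 ((compE (dil m)).symm (oneS p d))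
  have h4 : I (compE (dil m) ((compE (dil m)).symm (oneS p d))) = 0 := h3
  rw [LinearEquiv.apply_symm_apply, h1] at h4
  exact one_ne_zero h4

/-- the Fourier transform, as a function -/
def FF (ψ : AddChar ℚ_[p] ℂ_[p]) (hψ : IsLocallyConstant ψ) (I : S p d →ₗ[ℂ_[p]] ℂ_[p]) :
    S p d →ₗ[ℂ_[p]] (V p d → ℂ_[p]) where
  toFun f x := I (ml (E ψ hψ 0 0 (-x)) f)
  map_add' f g := by
    funext x
    rw [Pi.add_apply, ← map_add]
    congr 1
    apply S_ext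
    intro y
    exact mul_add _ _ _
  map_smul' r f := by
    funext x
    rw [Pi.smul_apply, RingHom.id_apply, ← map_smul]
    congr 1
    apply S_ext
    intro y
    show _ * (r * f.1 y) = r * (_ * f.1 y)
    ring

lemma FF_apply (f : S p d) (x : V p d) : FF ψ hψ I f x = I (ml (E ψ hψ 0 0 (-x)) f) := rfl

lemma FF_tau (hI : TInv I) (a : V p d) (f : S p d) (x : V p d) :
    FF ψ hψ I (tau a f) x = ψ (x ⬝ᵥ a) * FF ψ hψ I f x := by
  rw [FF_apply, FF_apply, ← smul_eq_mul, ← map_smul, ← hI (-a)]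
  congr 1
  apply S_ext
  intro z
  show E ψ hψ 0 0 (-x) (z + -a) * f.1 (z + -a + a) = ψ (x ⬝ᵥ a) * (E ψ hψ 0 0 (-x) z * f.1 z)
  rw [neg_add_cancel_right, ← mul_assoc, E_apply, E_apply, ← AddChar.map_add_eq_mul]
  congr 2
  simp only [dotProduct_add, dotProduct_neg, neg_dotProduct]
  simp
  ring

lemma FF_ml (y : V p d) (f : S p d) (x : V p d) :
    FF ψ hψ I (ml (E ψ hψ 0 0 y) f) x = FF ψ hψ I f (x - y) := by
  rw [FF_apply, FF_apply, ← ml_mul, E_mul, add_zero]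
  congr 3
  abel

/-- the dual of a ball -/
lemma dual_ball (hc0 : c ≠ 0) (hc : Std ψ c) {k : ℤ} (hk : ‖c‖ = (p : ℝ) ^ (-k)) (m : ℤ)
    (x : V p d) :
    (∀ z : V p d, ‖z‖ ≤ (p : ℝ) ^ (-m) → ψ (x ⬝ᵥ z) = 1) ↔ ‖x‖ ≤ (p : ℝ) ^ (-(k - m)) := by
  constructor
  · intro h
    by_contra hx
    rw [pi_norm_le_iff_of_nonneg (rpos _).le] at hx
    push Not at hx
    obtain ⟨i, hi⟩ := hx
    have hxi : x i ≠ 0 := by
      intro h0
      rw [h0, norm_zero] at hi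
      exact absurd hi (not_lt.2 (rpos _).le)
    apply hc.ne
    have h1 := h (Pi.single i (c * (p : ℚ_[p])⁻¹ / x i)) ?_
    · rw [dotProduct_single, mul_div_cancel₀ _ hxi] at h1
      exact h1
    · rw [pi_norm_le_iff_of_nonneg (rpos _).le]
      intro j
      by_cases hj : j = i
      · subst hj
        rw [Pi.single_eq_same, norm_div, norm_mul, norm_inv, norm_p', inv_inv, hk]
        have h2 : (p : ℝ) ^ (-(k - m) + 1) ≤ ‖x j‖ := by
          by_contra h3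
          push Not at h3
          rw [← Padic.norm_le_pow_iff_norm_lt_pow_add_one] at h3
          exact absurd h3 (not_le.2 hi)
        rw [div_le_iff₀ (norm_pos_iff.2 hxi)]
        calc (p : ℝ) ^ (-k) * p = (p : ℝ) ^ (-m) * (p : ℝ) ^ (-(k - m) + 1) := by
              rw [← zpow_add₀ ppos.ne', ← zpow_add_one₀ ppos.ne']
              congr 1; ring
          _ ≤ _ := mul_le_mul_of_nonneg_left h2 (rpos _).le
      · rw [Pi.single_eq_of_ne hj, norm_zero]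
        exact (rpos _).le
  · intro hx z hz
    have e : x ⬝ᵥ z = c * ((x ⬝ᵥ z) / c) := by field_simp
    rw [e]
    apply hc.triv
    rw [norm_div, hk, div_le_one (rpos _)]
    apply IsUltrametricDist.norm_sum_le_of_forall_le_of_nonneg (rpos _).le
    intro i _
    rw [norm_mul]
    calc ‖x i‖ * ‖z i‖ ≤ (p : ℝ) ^ (-(k - m)) * (p : ℝ) ^ (-m) :=
          mul_le_mul ((norm_le_pi_norm x i).trans hx) ((norm_le_pi_norm z i).trans hz)
            (norm_nonneg _) (rpos _).le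
      _ = (p : ℝ) ^ (-k) := by
          rw [← zpow_add₀ ppos.ne']
          congr 1; ring

lemma FF_ind0 (hI : TInv I) (hc0 : c ≠ 0) (hc : Std ψ c) {k : ℤ} (hk : ‖c‖ = (p : ℝ) ^ (-k))
    (m : ℤ) (x : V p d) :
    FF ψ hψ I (ind 0 m) x = I (ind 0 m) * (ind (0 : V p d) (k - m)).1 x := by
  by_cases hx : ‖x‖ ≤ (p : ℝ) ^ (-(k - m))
  · rw [ind_apply_of (by rwa [sub_zero]), mul_one, FF_apply]
    congr 1
    apply S_ext
    intro z
    rw [ml_apply]
    by_cases hz : ‖z - 0‖ ≤ (p : ℝ) ^ (-m)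
    · rw [ind_apply_of hz, mul_one, E_apply]
      have h1 := (dual_ball hc0 hc hk m (-x)).2 (by rwa [norm_neg]) z (by rwa [sub_zero] at hz)
      simpa using h1
    · rw [ind_apply_of_not hz, mul_zero]
  · rw [ind_apply_of_not (by rwa [sub_zero]), mul_zero]
    rw [← norm_neg, ← dual_ball hc0 hc hk m] at hx
    push Not at hx
    obtain ⟨z₀, hz₀, hne⟩ := hx
    have h1 : tau z₀ (ml (E ψ hψ 0 0 (-x)) (ind 0 m)) =
        ψ (-x ⬝ᵥ z₀) • ml (E ψ hψ 0 0 (-x)) (ind 0 m) := by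
      apply S_ext
      intro z
      show E ψ hψ 0 0 (-x) (z + z₀) * (ind (0 : V p d) m).1 (z + z₀) =
        ψ (-x ⬝ᵥ z₀) * (E ψ hψ 0 0 (-x) z * (ind (0 : V p d) m).1 z)
      by_cases hz : ‖z - 0‖ ≤ (p : ℝ) ^ (-m)
      · have hz' : ‖z + z₀ - 0‖ ≤ (p : ℝ) ^ (-m) := by
          rw [sub_zero] at hz ⊢
          exact (IsUltrametricDist.norm_add_le_max _ _).trans (max_le hz hz₀)
        rw [ind_apply_of hz, ind_apply_of hz', mul_one, mul_one, E_apply, E_apply,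
          ← AddChar.map_add_eq_mul]
        congr 1
        rw [dotProduct_add]
        simp
        ring
      · have hz' : ¬ ‖z + z₀ - 0‖ ≤ (p : ℝ) ^ (-m) := by
          intro h
          apply hz
          rw [sub_zero] at h ⊢
          have e : z = (z + z₀) + -z₀ := by abel
          rw [e]
          exact (IsUltrametricDist.norm_add_le_max _ _).trans (max_le h (by rwa [norm_neg]))
        rw [ind_apply_of_not hz, ind_apply_of_not hz', mul_zero, mul_zero, mul_zero]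
    have h2 := hI z₀ (ml (E ψ hψ 0 0 (-x)) (ind 0 m))
    rw [h1, map_smul, smul_eq_mul] at h2
    have h3 : (ψ (-x ⬝ᵥ z₀) - 1) * I (ml (E ψ hψ 0 0 (-x)) (ind 0 m)) = 0 := by
      rw [sub_mul, h2, one_mul, sub_self]
    exact (mul_eq_zero.1 h3).resolve_left (sub_ne_zero.2 hne)

lemma FF_ind (hI : TInv I) (hc0 : c ≠ 0) (hc : Std ψ c) {k : ℤ} (hk : ‖c‖ = (p : ℝ) ^ (-k))
    (m : ℤ) (a : V p d) :
    FF ψ hψ I (ind a m) = (I (ind 0 m) • ml (E ψ hψ 0 0 (-a)) (ind 0 (k - m)) : S p d).1 := by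
  funext x
  show _ = I (ind 0 m) * (E ψ hψ 0 0 (-a) x * (ind (0 : V p d) (k - m)).1 x)
  rw [← tau_ind, FF_tau hI, FF_ind0 hI hc0 hc hk, E_apply, dotProduct_comm (-a) x]
  simp
  ring

lemma FF_mem (hI : TInv I) (hc0 : c ≠ 0) (hc : Std ψ c) (f : S p d) :
    FF ψ hψ I f ∈ SSub p d := by
  have hk : ‖c‖ = (p : ℝ) ^ (-c.valuation) := Padic.norm_eq_zpow_neg_valuation hc0
  obtain ⟨m, hm⟩ := exists_inv f
  obtain ⟨F, hF⟩ := decomp f m hm
  rw [hF, map_sum]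
  apply Submodule.sum_mem
  intro a _
  rw [map_smul, FF_ind hI hc0 hc hk]
  apply Submodule.smul_mem
  exact (I (ind 0 m) • ml (E ψ hψ 0 0 (-a)) (ind 0 (c.valuation - m)) : S p d).2

/-- the Fourier transform -/
def FS (ψ : AddChar ℚ_[p] ℂ_[p]) (hψ : IsLocallyConstant ψ) (I : S p d →ₗ[ℂ_[p]] ℂ_[p])
    (hI : TInv I) (hc0 : c ≠ 0) (hc : Std ψ c) : S p d →ₗ[ℂ_[p]] S p d where
  toFun f := ⟨FF ψ hψ I f, FF_mem hI hc0 hc f⟩
  map_add' f g := S_ext fun x => congrFun (map_add (FF ψ hψ I) f g) x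
  map_smul' r f := S_ext fun x => congrFun (map_smul (FF ψ hψ I) r f) x

lemma FS_apply (hI : TInv I) (hc0 : c ≠ 0) (hc : Std ψ c) (f : S p d) (x : V p d) :
    (FS ψ hψ I hI hc0 hc f).1 x = FF ψ hψ I f x := rfl

lemma FS_sq_ind (hI : TInv I) (hc0 : c ≠ 0) (hc : Std ψ c) {k : ℤ} (hk : ‖c‖ = (p : ℝ) ^ (-k))
    (m : ℤ) (a : V p d) :
    FS ψ hψ I hI hc0 hc (FS ψ hψ I hI hc0 hc (ind a m)) =
      (I (ind 0 m) * I (ind 0 (k - m))) • ind (-a) m := by
  have h1 : FS ψ hψ I hI hc0 hc (ind a m) =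
      I (ind 0 m) • ml (E ψ hψ 0 0 (-a)) (ind 0 (k - m)) :=
    S_ext fun x => congrFun (FF_ind hI hc0 hc hk m a) x
  rw [h1, map_smul, mul_smul]
  congr 1
  apply S_ext
  intro x
  rw [FS_apply, FF_ml, FF_ind0 hI hc0 hc hk]
  show I (ind 0 (k - m)) * _ = I (ind 0 (k - m)) * (ind (-a) m).1 x
  congr 1
  rw [sub_neg_eq_add, sub_sub_cancel]
  by_cases hx : ‖x + a‖ ≤ (p : ℝ) ^ (-m)
  · rw [ind_apply_of (by rwa [sub_zero]), ind_apply_of (by rwa [sub_neg_eq_add])]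
  · rw [ind_apply_of_not (by rwa [sub_zero]), ind_apply_of_not (by rwa [sub_neg_eq_add])]

lemma FS_four (hI : TInv I) (h1 : I (oneS p d) = 1) (hc0 : c ≠ 0) (hc : Std ψ c) (f : S p d) :
    ∃ r : ℂ_[p], r ≠ 0 ∧ FS ψ hψ I hI hc0 hc (FS ψ hψ I hI hc0 hc
      (FS ψ hψ I hI hc0 hc (FS ψ hψ I hI hc0 hc f))) = r • f := by
  have hk : ‖c‖ = (p : ℝ) ^ (-c.valuation) := Padic.norm_eq_zpow_neg_valuation hc0
  obtain ⟨m, hm⟩ := exists_inv f
  obtain ⟨F, hF⟩ := decomp f m hm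
  set C := I (ind 0 m) * I (ind 0 (c.valuation - m)) with hC
  have hC0 : C ≠ 0 := mul_ne_zero (hI.ind_ne h1 _) (hI.ind_ne h1 _)
  refine ⟨C * C, mul_ne_zero hC0 hC0, ?_⟩
  conv_lhs => rw [hF]
  conv_rhs => rw [hF]
  simp only [map_sum, map_smul, Finset.smul_sum]
  refine Finset.sum_congr rfl fun a _ => ?_
  rw [FS_sq_ind hI hc0 hc hk, ← hC, map_smul, map_smul, FS_sq_ind hI hc0 hc hk, ← hC, neg_neg,
    smul_smul C C, smul_comm]

lemma FS_bij (hI : TInv I) (h1 : I (oneS p d) = 1) (hc0 : c ≠ 0) (hc : Std ψ c) :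
    Function.Bijective (FS ψ hψ I hI hc0 hc) := by
  constructor
  · rw [injective_iff_map_eq_zero]
    intro f hf
    obtain ⟨r, hr, h⟩ := FS_four (hψ := hψ) hI h1 hc0 hc f
    rw [hf, map_zero, map_zero, map_zero] at h
    exact (smul_eq_zero.1 h.symm).resolve_left hr
  · intro f
    obtain ⟨r, hr, h⟩ := FS_four (hψ := hψ) hI h1 hc0 hc f
    refine ⟨r⁻¹ • (FS ψ hψ I hI hc0 hc (FS ψ hψ I hI hc0 hc (FS ψ hψ I hI hc0 hc f))), ?_⟩
    rw [map_smul, h, smul_smul, inv_mul_cancel₀ hr, one_smul]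

lemma symJ_mem (hc0 : c ≠ 0) (hc : Std ψ c) :
    (SymplecticGroup.symJ (Fin d) ℚ_[p] : Sp p d) ∈ (HG ψ hψ : Subgroup (Sp p d)) := by
  obtain ⟨I, hI, h1⟩ := exists_haar p d
  refine ⟨LinearEquiv.ofBijective _ (FS_bij (hψ := hψ) hI h1 hc0 hc), fun w t f => ?_⟩
  obtain ⟨u, v, rfl⟩ : ∃ u v : V p d, w = Sum.elim u v := ⟨fstV w, sndV w, by
    ext i; cases i <;> rfl⟩
  have e1 : (Sum.elim u v : W p d) ᵥ* (SymplecticGroup.symJ (Fin d) ℚ_[p] : Sp p d).1 =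
      Sum.elim v (-u) := by
    rw [SymplecticGroup.coe_J, J, vecMul_fromBlocks]
    simp [vecMul_neg]
  rw [e1]
  apply S_ext
  intro x
  rw [LinearEquiv.ofBijective_apply, LinearEquiv.ofBijective_apply, rho_apply, FS_apply, FS_apply,
    FF_apply, FF_apply, fstV_elim, sndV_elim, ← smul_eq_mul, ← map_smul, ← hI (-v)]
  congr 1
  apply S_ext
  intro z
  show E ψ hψ 0 0 (-x) (z + -v) * (rho ψ hψ (Sum.elim v (-u)) t f).1 (z + -v) =
    ψ (t + u ⬝ᵥ v / 2) * ψ (v ⬝ᵥ x) * (E ψ hψ 0 0 (-(x + u)) z * f.1 z)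
  rw [rho_apply, fstV_elim, sndV_elim, neg_add_cancel_right, E_apply, E_apply]
  simp only [← mul_assoc, ← AddChar.map_add_eq_mul]
  congr 2
  simp only [dotProduct_add, dotProduct_neg, neg_dotProduct, add_dotProduct]
  rw [dotProduct_comm v u, dotProduct_comm v x]
  simp
  ring

end Pool.Agent.R316.HN
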