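import Pool.Agent.R316.HN.Fourier

set_option autoImplicit false

noncomputable section

open Matrix Finset

namespace Pool.Agent.R316.HN

section Mathlib

variable {l : Type*} [Fintype l] [DecidableEq l]

/-! The proof of the next lemma is copied from `Mathlib.LinearAlgebra.SymplecticGroup`, where the
lemma is private. -/

lemma exists_symm_add_mul {R : Type*} [Field R]
    {A C : Matrix l l R} (hker : ∀ (x : l → R), (A • x = 0) → (C • x = 0) → x = 0)
    (hsymm : Aᵀ * C = Cᵀ * A) :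
    ∃ (X : Matrix l l R), X.IsSymm ∧ IsUnit (A + X * C) := by
  -- `C` is transformed into `P = fromBlocks 1 0 0 0` by invertible matrices `V` and `U`.
  rcases exists_rank_normal_form C with ⟨V, U, s, hV, hU, heq⟩
  set P := V * C * U with P_def; set Q := Vᵀ⁻¹ * A * U with Q_def
  set f := fun (x : Matrix l l R) ↦ x.submatrix s.symm s.symm
  have hf (x) : f x = x.submatrix s.symm s.symm := rfl
  have f_unit {x} : IsUnit x → IsUnit (f x) := (isUnit_submatrix_equiv ..).2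
  have f_mul (x y) : f (x * y) = f x * f y := submatrix_mul _ _ _ _ _ s.symm.bijective
  have _ : Invertible V := hV.invertible
  have _ : Invertible U := hU.invertible
  have _ : Invertible (f Vᵀ) := (f_unit (V.isUnit_transpose.2 hV)).invertible
  -- The hypothesis that the only vector annihilated by both matrices is 0, holds for `P` and `Q`.
  have con1 (x : Fin C.rank ⊕ Fin (Fintype.card l - C.rank) → R)
      (heq1 : (f Q) • x = 0) (heq2 : (f P) • x = 0) : x = 0 := by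
    refine (f_unit hU).smul_left_cancel.1 ?_
    rw [f_mul, f_mul, mul_assoc, mul_smul, IsUnit.smul_eq_zero, mul_smul, hf,
      smul_eq_mulVec, submatrix_mulVec_equiv, Equiv.symm_symm] at heq1 heq2
    · rw [Equiv.comp_symm_eq, Pi.zero_comp] at heq1 heq2
      exact s.surjective.injective_comp_right <| by simpa using hker _ heq1 heq2
    · exact f_unit hV
    · exact f_unit <| isUnit_nonsing_inv_iff.2 <| V.isUnit_transpose.2 hV
  -- The symmetry relation also holds for `P` and `Q`.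
  have con2 : Qᵀ * P = Pᵀ * Q := by
    simp only [P_def, mul_assoc, transpose_mul, transpose_nonsing_inv, transpose_transpose, Q_def,
      inv_mul_cancel_left_of_invertible, mul_inv_cancel_left_of_invertible]
    rw [← mul_assoc Aᵀ, hsymm, mul_assoc]
  replace con2 : (f Q).toBlocks₁₁ᵀ = (f Q).toBlocks₁₁ ∧ (f Q).toBlocks₁₂ = 0 := by
    apply_fun reindex s s at con2
    rw [reindex_apply, reindex_apply, ← hf, ← hf, f_mul, f_mul Pᵀ, heq, hf,
      ← transpose_submatrix, ← hf Q, ← (f Q).fromBlocks_toBlocks, hf (_)ᵀ, hf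
      ((fromBlocks 1 0 0 0).submatrix _ _)] at con2
    simp [fromBlocks_transpose, fromBlocks_multiply] at con2; tauto
  -- The lower-right block of `Q` is invertible.
  have con3 : IsUnit (f Q).toBlocks₂₂ := by
    refine mulVec_injective_iff_isUnit.1 ?_
    rw [← coe_mulVecLin, ← LinearMap.ker_eq_bot]
    refine ker_mulVecLin_eq_bot_iff.2 fun x hx ↦ Sum.elim_injective' <|
      (con1 _ ?_ ?_).trans Sum.elim_zero_zero.symm
    · rw [← (f Q).fromBlocks_toBlocks]; simp [hx, con2.2, fromBlocks_mulVec]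
    · simp [hf, heq, fromBlocks_mulVec]
  set Y : Matrix (Fin C.rank ⊕ Fin (Fintype.card l - C.rank)) (Fin C.rank ⊕
    Fin (Fintype.card l - C.rank)) R := fromBlocks (1 - (f Q).toBlocks₁₁) 0 0 0 with Y_def
  have hY_symm : Y.IsSymm := by
    rw [Y_def, isSymm_fromBlocks_iff]
    exact ⟨IsSymm.sub isSymm_one con2.1, by simp⟩
  -- We now take `X = Vᵀ * Y * V` and this gives the desired matrix `X.submatrix s s`.
  set X := (f Vᵀ) * Y * (f V) with X_def
  refine ⟨X.submatrix s s, IsSymm.submatrix ?_ s, (isUnit_submatrix_equiv s.symm s.symm).1 ?_⟩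
  · simp_rw [X_def, Matrix.IsSymm, transpose_mul, hY_symm.eq, hf, transpose_submatrix,
      transpose_transpose, mul_assoc]
  · have heq' : f (A + X.submatrix s s * C) = (f Vᵀ) * (f Q + Y * (f P)) * f (U⁻¹) := by
      simp_rw [hf, submatrix_add, Pi.add_apply, Q_def, P_def, ← hf, f_mul, hf, mul_add, ← mul_assoc,
        ← inv_submatrix_equiv, add_mul, mul_assoc _ (U.submatrix _ _), mul_inv_of_invertible]
      simp [X_def]; rfl
    rw [← hf, heq', IsUnit.mul_iff, IsUnit.mul_iff]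
    refine ⟨⟨isUnit_of_invertible _, ?_⟩, ?_⟩
    · nth_rw 1 [Y_def, heq, ← (f Q).fromBlocks_toBlocks, con2.2]
      simpa [hf, fromBlocks_multiply, fromBlocks_add]
    · exact f_unit <| isUnit_nonsing_inv_iff.2 hU


end Mathlib

variable {p : ℕ} [Fact p.Prime] {d : ℕ}
variable {ψ : AddChar ℚ_[p] ℂ_[p]} {c : ℚ_[p]} {hψ : IsLocallyConstant ψ}

/-- the unipotent element of `P` of a symmetric matrix -/
def nX (X : Matrix (Fin d) (Fin d) ℚ_[p]) (hX : X.IsSymm) : Sp p d :=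
  ⟨fromBlocks 1 X 0 1, by
    rw [SymplecticGroup.fromBlocks_mem_iff]
    simp [hX.eq]⟩

lemma nX_mem (X : Matrix (Fin d) (Fin d) ℚ_[p]) (hX : X.IsSymm) : nX X hX ∈ Par p d := by
  rw [mem_Par_iff]
  unfold nX
  rw [toBlocks_fromBlocks₂₁]

lemma HG_top (hc0 : c ≠ 0) (hc : Std ψ c) : (HG ψ hψ : Subgroup (Sp p d)) = ⊤ := by
  rw [Subgroup.eq_top_iff']
  intro M
  set A := M.1.toBlocks₁₁ with hA
  set B := M.1.toBlocks₁₂ with hB
  set C := M.1.toBlocks₂₁ with hC
  set D := M.1.toBlocks₂₂ with hD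
  have hM : M.1 = fromBlocks A B C D := (fromBlocks_toBlocks M.1).symm
  have hM2 := M.2
  rw [hM] at hM2
  have hrel := SymplecticGroup.fromBlocks_mem_iff.1 hM2
  have hker : ∀ x : Fin d → ℚ_[p], A • x = 0 → C • x = 0 → x = 0 := by
    intro x h1 h2
    rw [smul_eq_mulVec] at h1 h2
    have h3 : M.1 *ᵥ (Sum.elim x 0) = 0 := by
      rw [hM, fromBlocks_mulVec]
      simp [h1, h2]
    have h4 : (M⁻¹).1 *ᵥ (M.1 *ᵥ (Sum.elim x 0)) = Sum.elim x 0 := by
      rw [mulVec_mulVec]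
      have e : (M⁻¹).1 * M.1 = (M⁻¹ * M).1 := rfl
      rw [e, inv_mul_cancel]
      exact one_mulVec _
    rw [h3, mulVec_zero] at h4
    funext i
    exact (congrFun h4 (Sum.inl i)).symm
  obtain ⟨X, hX, hU⟩ := exists_symm_add_mul hker hrel.1
  set A' := A + X * C with hA'
  have hM' : (nX X hX * M).1 = fromBlocks A' (B + X * D) C D := by
    show fromBlocks 1 X 0 1 * M.1 = _
    rw [hM, fromBlocks_multiply]
    simp [hA']
  have hM'2 := (nX X hX * M).2
  rw [hM'] at hM'2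
  have hrel' := SymplecticGroup.fromBlocks_mem_iff.1 hM'2
  have hdet : IsUnit A'.det := (isUnit_iff_isUnit_det _).1 hU
  set Y := C * A'⁻¹ with hY
  have hYs : Y.IsSymm := by
    show (C * A'⁻¹)ᵀ = C * A'⁻¹
    rw [transpose_mul, transpose_nonsing_inv]
    have hdet' : IsUnit A'ᵀ.det := by rwa [det_transpose]
    calc (A'ᵀ)⁻¹ * Cᵀ = (A'ᵀ)⁻¹ * Cᵀ * (A' * A'⁻¹) := by rw [mul_nonsing_inv _ hdet, mul_one]
      _ = (A'ᵀ)⁻¹ * (Cᵀ * A') * A'⁻¹ := by simp only [Matrix.mul_assoc]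
      _ = (A'ᵀ)⁻¹ * (A'ᵀ * C) * A'⁻¹ := by rw [hrel'.1]
      _ = C * A'⁻¹ := by rw [← Matrix.mul_assoc, nonsing_inv_mul _ hdet', Matrix.one_mul]
  set j : Sp p d := SymplecticGroup.symJ (Fin d) ℚ_[p] with hj
  have hjH : j ∈ (HG ψ hψ : Subgroup (Sp p d)) := symJ_mem hc0 hc
  set q : Sp p d := j * nX Y hYs * j⁻¹ * nX X hX with hq
  have hqH : q ∈ (HG ψ hψ : Subgroup (Sp p d)) :=
    mul_mem (mul_mem (mul_mem hjH (Par_le (nX_mem _ _))) (inv_mem hjH)) (Par_le (nX_mem _ _))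
  have hqM : q * M ∈ Par p d := by
    rw [mem_Par_iff]
    have e1 : (j * nX Y hYs * j⁻¹).1 = fromBlocks 1 0 (-Y) 1 := by
      show J (Fin d) ℚ_[p] * fromBlocks 1 Y 0 1 * (-J (Fin d) ℚ_[p] * (J (Fin d) ℚ_[p])ᵀ *
        J (Fin d) ℚ_[p]) = _
      rw [J_transpose, J, fromBlocks_neg, fromBlocks_multiply, fromBlocks_multiply,
        fromBlocks_multiply, fromBlocks_multiply]
      simp
    have e2 : (q * M).1 = fromBlocks 1 0 (-Y) 1 * fromBlocks A' (B + X * D) C D := by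
      rw [← e1, ← hM', hq, mul_assoc]
      rfl
    rw [e2, fromBlocks_multiply, toBlocks_fromBlocks₂₁, hY, neg_mul, Matrix.mul_assoc,
      nonsing_inv_mul _ hdet, Matrix.mul_one, one_mul, neg_add_cancel]
  have e : M = q⁻¹ * (q * M) := by rw [inv_mul_cancel_left]
  rw [e]
  exact mul_mem (inv_mem hqH) (Par_le hqM)

lemma exists_T (hc0 : c ≠ 0) (hc : Std ψ c) (g : Sp p d) :
    ∃ T : S p d ≃ₗ[ℂ_[p]] S p d, Intertwines ψ hψ g T := by
  rw [← mem_HG, HG_top hc0 hc]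
  trivial

lemma sup_pos (T : S p d ≃ₗ[ℂ_[p]] S p d) : 0 < ⨆ x, ‖(T (oneS p d)).1 x‖ := by
  have h1 : T (oneS p d) ≠ 0 := by
    intro h
    rw [LinearEquiv.map_eq_zero_iff] at h
    have h2 : (oneS p d).1 0 = 1 := one_apply_of (by rw [norm_zero]; exact zero_le_one)
    rw [h] at h2
    exact zero_ne_one h2
  obtain ⟨x, hx⟩ : ∃ x, (T (oneS p d)).1 x ≠ 0 := by
    by_contra h
    push Not at h
    exact h1 (S_ext h)
  exact (norm_pos_iff.2 hx).trans_le (le_ciSup (bdd (T (oneS p d))) x)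

/-- existence of the norms -/
lemma exists_N (hc0 : c ≠ 0) (hc : Std ψ c) : ∃ N : X p d → S p d → ℝ,
    ∀ g : Sp p d, IsNormAt ψ hψ g (N (cl g)) := by
  choose T hT using fun g : Sp p d => exists_T (hψ := hψ) hc0 hc g
  choose g₀ hg₀ using fun α : X p d => exists_rep_cl α
  refine ⟨fun α f => (⨆ x, ‖(T (g₀ α) (oneS p d)).1 x‖)⁻¹ * ⨆ x, ‖(T (g₀ α) f).1 x‖, fun g => ?_⟩
  have h1 : g * (g₀ (cl g))⁻¹ ∈ Par p d := cl_eq_iff.1 (hg₀ (cl g))
  set γ := g₀ (cl g) with hγ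
  obtain ⟨a, b, e, hb1, hb2, hb3, hb4⟩ := Par_blocks h1
  have h2 := (TP_intertwines (ψ := ψ) (hψ := hψ) hb2 hb1 hb4).mul (hT γ)
  rw [inv_mul_cancel_right] at h2
  refine ⟨_, h2, (⨆ x, ‖(T γ (oneS p d)).1 x‖)⁻¹, inv_pos.2 (sup_pos _), fun f => ?_, ?_⟩
  · have e1 : ∀ x, ‖(((T γ).trans (TP ψ hψ a b e hb2)) f).1 x‖ =
        ‖(T γ f).1 (rmul a eᵀ hb2 x)‖ := by
      intro x
      rw [LinearEquiv.trans_apply, TP_apply, norm_mul, norm_char hψ, one_mul, rmul_apply]
    simp only [e1]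
    rw [← (rmul a eᵀ hb2).toEquiv.iSup_comp (g := fun x => ‖(T γ f).1 x‖)]
    rfl
  · exact inv_mul_cancel₀ (sup_pos (T γ)).ne'

/-- an operator commuting with the Heisenberg group is scalar -/
lemma schur (hc0 : c ≠ 0) (hc : Std ψ c) {T : S p d ≃ₗ[ℂ_[p]] S p d}
    (hT : Intertwines ψ hψ 1 T) (f : S p d) : T f = (T (oneS p d)).1 0 • f := by
  apply S_ext
  intro x
  have h1 := hT (Sum.elim x (0 : V p d)) 0 f
  have e : (Sum.elim x (0 : V p d) : W p d) ᵥ* (1 : Sp p d).1 = Sum.elim x (0 : V p d) :=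
    vecMul_one _
  rw [e] at h1
  have h2 : ∀ F : S p d, (rho ψ hψ (Sum.elim x (0 : V p d)) 0 F).1 0 = F.1 x := by
    intro F
    rw [rho_apply, fstV_elim, sndV_elim, dotProduct_zero, zero_dotProduct]
    simp
  have h3 := lam_eq hT hc0 hc (rho ψ hψ (Sum.elim x (0 : V p d)) 0 f)
  rw [lam_apply, h1, h2, h2, lam_apply, mul_comm] at h3
  exact h3

/-- uniqueness of the norm at `P g` -/
lemma IsNormAt.unique (hc0 : c ≠ 0) (hc : Std ψ c) {g : Sp p d} {ν ν' : S p d → ℝ}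
    (h : IsNormAt ψ hψ g ν) (h' : IsNormAt ψ hψ g ν') : ν = ν' := by
  obtain ⟨T, hT, C, hC, hν, h1⟩ := h
  obtain ⟨T', hT', C', hC', hν', h1'⟩ := h'
  have h2 : Intertwines ψ hψ 1 (T.symm.trans T') := by
    have := hT'.mul hT.inv
    rwa [mul_inv_cancel] at this
  set κ := ((T.symm.trans T') (oneS p d)).1 0 with hκ
  have h3 : ∀ f, T' f = κ • T f := by
    intro f
    have := schur hc0 hc h2 (T f)
    rwa [LinearEquiv.trans_apply, LinearEquiv.symm_apply_apply] at this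
  have h4 : ∀ f, ν' f = (C' * ‖κ‖) * ⨆ x, ‖(T f).1 x‖ := by
    intro f
    rw [hν', mul_assoc, Real.mul_iSup_of_nonneg (norm_nonneg _)]
    congr 2
    funext x
    rw [h3]
    exact norm_mul _ _
  have h5 : C' * ‖κ‖ = C := by
    have h6 := h4 (oneS p d)
    rw [h1'] at h6
    have h7 := hν (oneS p d)
    rw [h1] at h7
    exact mul_right_cancel₀ (sup_pos T).ne' (h6.symm.trans h7)
  funext f
  rw [hν, h4, h5]

lemma existsUnique_N (hc0 : c ≠ 0) (hc : Std ψ c) : ∃! N : X p d → S p d → ℝ,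
    ∀ g : Sp p d, IsNormAt ψ hψ g (N (cl g)) := by
  obtain ⟨N, hN⟩ := exists_N (hψ := hψ) (d := d) hc0 hc
  refine ⟨N, hN, fun N' hN' => ?_⟩
  funext α
  obtain ⟨g, rfl⟩ := exists_rep_cl α
  exact (hN' g).unique hc0 hc (hN g)

end Pool.Agent.R316.HN
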