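import Pool.Agent.R316.HN.Final

set_option autoImplicit false

noncomputable section

open Matrix Finset

namespace Pool.Agent.R316.HN

variable {p : ℕ} [Fact p.Prime] {d : ℕ}

lemma mem_U {m : ℤ} {x : V p d} : x ∈ (U m : AddSubgroup (V p d)) ↔ ‖x‖ ≤ (p : ℝ) ^ (-m) := Iff.rfl

lemma coe_U (m : ℤ) : ((U m : AddSubgroup (V p d)) : Set (V p d)) =
    Metric.closedBall 0 ((p : ℝ) ^ (-m)) := by
  ext x
  rw [SetLike.mem_coe, mem_U, mem_closedBall_zero_iff]

instance compact_U (m : ℤ) : CompactSpace (U m : AddSubgroup (V p d)) := by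
  have h : IsCompact ((U m : AddSubgroup (V p d)) : Set (V p d)) := by
    rw [coe_U]
    exact isCompact_closedBall _ _
  exact isCompact_iff_compactSpace.1 h

/-- the finite group `p^(-M) ℤ_p^d / p^M ℤ_p^d` -/
abbrev QM (p : ℕ) [Fact p.Prime] (d : ℕ) (M : ℕ) : Type :=
  (U (-(M : ℤ)) : AddSubgroup (V p d)) ⧸ (U (M : ℤ) : AddSubgroup (V p d)).addSubgroupOf (U (-(M : ℤ)))

instance finite_QM (M : ℕ) : Finite (QM p d M) := by
  apply AddSubgroup.quotient_finite_of_isOpen
  have h : IsOpen ((U (M : ℤ) : AddSubgroup (V p d)) : Set (V p d)) := by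
    rw [coe_U]
    exact (IsUltrametricDist.isClopen_closedBall _ (rpos _).ne').isOpen
  exact h.preimage continuous_subtype_val

noncomputable instance fintype_QM (M : ℕ) : Fintype (QM p d M) := Fintype.ofFinite _

/-- the sum over representatives -/
def SM (M : ℕ) : S p d →ₗ[ℂ_[p]] ℂ_[p] where
  toFun f := ∑ q : QM p d M, f.1 (q.out : V p d)
  map_add' f g := by
    rw [← Finset.sum_add_distrib]
    rfl
  map_smul' r f := by
    rw [RingHom.id_apply, smul_eq_mul, Finset.mul_sum]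
    rfl

lemma SM_apply (M : ℕ) (f : S p d) : SM M f = ∑ q : QM p d M, f.1 (q.out : V p d) := rfl

lemma SM_tau (M : ℕ) (f : S p d) (hf : ∀ x z : V p d, ‖z‖ ≤ (p : ℝ) ^ (-(M : ℤ)) →
    f.1 (x + z) = f.1 x) (a : V p d) (ha : ‖a‖ ≤ (p : ℝ) ^ (M : ℤ)) :
    SM M (tau a f) = SM M f := by
  have ha' : a ∈ (U (-(M : ℤ)) : AddSubgroup (V p d)) := by rwa [mem_U, neg_neg]
  set a' : (U (-(M : ℤ)) : AddSubgroup (V p d)) := ⟨a, ha'⟩ with ha'
  rw [SM_apply, SM_apply, ← Equiv.sum_comp (Equiv.addRight (QuotientAddGroup.mk a' : QM p d M))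
    (fun q : QM p d M => f.1 (q.out : V p d))]
  refine Finset.sum_congr rfl fun q _ => ?_
  show f.1 ((q.out : V p d) + a) = f.1 (((q + (QuotientAddGroup.mk a' : QM p d M)).out : _) : V p d)
  have h1 : (QuotientAddGroup.mk (q.out + a') : QM p d M) =
      QuotientAddGroup.mk ((q + (QuotientAddGroup.mk a' : QM p d M)).out) := by
    rw [QuotientAddGroup.mk_add, QuotientAddGroup.out_eq', QuotientAddGroup.out_eq']
  rw [QuotientAddGroup.eq, AddSubgroup.mem_addSubgroupOf] at h1
  have h2 := hf ((q.out : V p d) + a) _ h1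
  rw [← h2]
  simp only [AddSubgroup.coe_add, AddSubgroup.coe_neg, ha']
  abel_nf

lemma SM_one (M : ℕ) : SM M (oneS p d) ≠ 0 := by
  classical
  have h : SM M (oneS p d) =
      ((Finset.univ.filter fun q : QM p d M => ‖(q.out : V p d)‖ ≤ 1).card : ℂ_[p]) := by
    rw [SM_apply, Finset.card_filter, Nat.cast_sum]
    refine Finset.sum_congr rfl fun q _ => ?_
    by_cases hq : ‖(q.out : V p d)‖ ≤ 1
    · rw [one_apply_of hq, if_pos hq, Nat.cast_one]
    · rw [one_apply_of_not hq, if_neg hq, Nat.cast_zero]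
  rw [h, Nat.cast_ne_zero, ← Nat.pos_iff_ne_zero, Finset.card_pos]
  refine ⟨0, Finset.mem_filter.2 ⟨Finset.mem_univ _, ?_⟩⟩
  have h1 : (QuotientAddGroup.mk ((0 : QM p d M).out) : QM p d M) = 0 :=
    QuotientAddGroup.out_eq' _
  rw [QuotientAddGroup.eq_zero_iff, AddSubgroup.mem_addSubgroupOf] at h1
  refine le_trans h1 ?_
  exact zpow_le_one_of_nonpos₀ (one_lt_p (p := p)).le (by simp)

variable (p d)

/-- existence of a normalized translation invariant functional -/
lemma exists_haar : ∃ J : S p d →ₗ[ℂ_[p]] ℂ_[p], TInv J ∧ J (oneS p d) = 1 := by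
  set R : Submodule ℂ_[p] (S p d) :=
    Submodule.span ℂ_[p] {h | ∃ (a : V p d) (f : S p d), h = tau a f - f} with hR
  have key : ∀ h ∈ R, ∃ M₀ : ℕ, ∀ M ≥ M₀, SM M h = 0 := by
    intro h hh
    induction hh using Submodule.span_induction with
    | mem x hx =>
      obtain ⟨a, f, rfl⟩ := hx
      obtain ⟨m, hm⟩ := exists_inv f
      obtain ⟨k, hk⟩ := pow_unbounded_of_one_lt ‖a‖ (one_lt_p (p := p))
      refine ⟨max m k, fun M hM => ?_⟩
      have hmM : m ≤ M := (le_max_left _ _).trans hM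
      have hkM : k ≤ M := (le_max_right _ _).trans hM
      rw [map_sub, SM_tau, sub_self]
      · intro x z hz
        apply hm
        exact hz.trans (zpow_le_zpow_right₀ (one_lt_p (p := p)).le (by omega))
      · rw [zpow_natCast]
        exact hk.le.trans (pow_le_pow_right₀ (one_lt_p (p := p)).le hkM)
    | zero => exact ⟨0, fun M _ => map_zero _⟩
    | add x y _ _ hx hy =>
      obtain ⟨M₁, h1⟩ := hx
      obtain ⟨M₂, h2⟩ := hy
      refine ⟨max M₁ M₂, fun M hM => ?_⟩
      rw [map_add, h1 M ((le_max_left _ _).trans hM), h2 M ((le_max_right _ _).trans hM), add_zero]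
    | smul r x _ hx =>
      obtain ⟨M₁, h1⟩ := hx
      refine ⟨M₁, fun M hM => ?_⟩
      rw [map_smul, h1 M hM, smul_zero]
  have hnot : oneS p d ∉ R := by
    intro h
    obtain ⟨M, hM⟩ := key _ h
    exact SM_one M (hM M le_rfl)
  obtain ⟨l, hl1, hl2⟩ := Submodule.exists_dual_map_eq_bot_of_notMem hnot inferInstance
  have hlT : TInv l := by
    intro a f
    have h1 : l (tau a f - f) ∈ R.map l :=
      Submodule.mem_map_of_mem (Submodule.subset_span ⟨a, f, rfl⟩)
    rw [hl2, Submodule.mem_bot, map_sub, sub_eq_zero] at h1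
    exact h1
  refine ⟨(l (oneS p d))⁻¹ • l, fun a f => ?_, ?_⟩
  · rw [LinearMap.smul_apply, LinearMap.smul_apply, hlT a f]
  · rw [LinearMap.smul_apply, smul_eq_mul, inv_mul_cancel₀ hl1]

end Pool.Agent.R316.HN
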