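import Pool.Agent.R316.HN.Char

set_option autoImplicit false

noncomputable section

open Matrix Finset

namespace Pool.Agent.R316.HN

variable {p : ℕ} [Fact p.Prime] {d : ℕ}
variable {ψ : AddChar ℚ_[p] ℂ_[p]} {c : ℚ_[p]}

lemma TInv.eq_zero {l : S p d →ₗ[ℂ_[p]] ℂ_[p]} (hl : TInv l) (h1 : l (oneS p d) = 0) : l = 0 := by
  ext f
  obtain ⟨m, hm⟩ := exists_inv f
  obtain ⟨F, hF⟩ := decomp f m hm
  have h3 := hl.small m
  rw [h1] at h3
  have h4 : l (ind 0 m) = 0 :=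
    (mul_eq_zero.1 h3).resolve_left (pow_ne_zero _ (pow_ne_zero _ p_ne))
  rw [hF, map_sum, LinearMap.zero_apply]
  refine Finset.sum_eq_zero fun a _ => ?_
  rw [map_smul, hl.shift, h4, smul_zero]

/-- the function `x ↦ ψ (∑ c m_j x_j² + y·x)` -/
def E (ψ : AddChar ℚ_[p] ℂ_[p]) (hψ : IsLocallyConstant ψ) (c : ℚ_[p]) (m y : V p d) :
    LocallyConstant (V p d) ℂ_[p] :=
  ⟨fun x => ψ (∑ j, c * m j * x j ^ 2 + y ⬝ᵥ x), lc_comp hψ (by fun_prop)⟩

variable (hψ : IsLocallyConstant ψ)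

lemma E_apply (m y x : V p d) : E ψ hψ c m y x = ψ (∑ j, c * m j * x j ^ 2 + y ⬝ᵥ x) := rfl

lemma E_zero : E ψ hψ c (0 : V p d) 0 = 1 := by
  ext x
  rw [E_apply]
  simp

lemma E_mul (m y m' y' : V p d) : E ψ hψ c m y * E ψ hψ c m' y' = E ψ hψ c (m + m') (y + y') := by
  ext x
  rw [LocallyConstant.coe_mul, Pi.mul_apply, E_apply, E_apply, E_apply, ← AddChar.map_add_eq_mul]
  congr 1
  rw [add_dotProduct, add_add_add_comm, ← Finset.sum_add_distrib]
  congr 1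
  refine Finset.sum_congr rfl fun j _ => ?_
  rw [Pi.add_apply]; ring

lemma norm_E (m y x : V p d) : ‖E ψ hψ c m y x‖ = 1 := norm_char hψ _

/-- multiplication of `f ∈ 𝒮` by a locally constant function -/
def ml (φ : LocallyConstant (V p d) ℂ_[p]) (f : S p d) : S p d :=
  mulS φ φ.isLocallyConstant f

lemma ml_apply (φ : LocallyConstant (V p d) ℂ_[p]) (f : S p d) (x : V p d) :
    (ml φ f).1 x = φ x * f.1 x := rfl

lemma ml_mul (φ φ' : LocallyConstant (V p d) ℂ_[p]) (f : S p d) :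
    ml (φ * φ') f = ml φ (ml φ' f) := by
  apply S_ext; intro x
  rw [ml_apply, ml_apply, ml_apply, LocallyConstant.coe_mul, Pi.mul_apply, mul_assoc]

lemma ml_one (f : S p d) : ml 1 f = f := by
  apply S_ext; intro x
  rw [ml_apply, LocallyConstant.coe_one, Pi.one_apply, one_mul]

/-- `h ↦ l (φ h)` -/
def mlL (φ : LocallyConstant (V p d) ℂ_[p]) : S p d →ₗ[ℂ_[p]] S p d :=
  mulS φ φ.isLocallyConstant

lemma mlL_apply (φ : LocallyConstant (V p d) ℂ_[p]) (f : S p d) : mlL φ f = ml φ f := rfl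

/-- `φ ↦ φ f` -/
def mlR (f : S p d) : LocallyConstant (V p d) ℂ_[p] →ₗ[ℂ_[p]] S p d where
  toFun φ := ml φ f
  map_add' φ φ' := by
    apply S_ext; intro x
    show (φ + φ') x * f.1 x = φ x * f.1 x + φ' x * f.1 x
    rw [LocallyConstant.coe_add, Pi.add_apply, add_mul]
  map_smul' r φ := by
    apply S_ext; intro x
    show (r • φ) x * f.1 x = r * (φ x * f.1 x)
    rw [LocallyConstant.coe_smul, Pi.smul_apply, smul_eq_mul, mul_assoc]

lemma mlR_apply (f : S p d) (φ : LocallyConstant (V p d) ℂ_[p]) : mlR f φ = ml φ f := rfl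

/-- `f ↦ (T f)(0)` -/
def lam (T : S p d ≃ₗ[ℂ_[p]] S p d) : S p d →ₗ[ℂ_[p]] ℂ_[p] where
  toFun f := (T f).1 0
  map_add' f g := by rw [map_add]; rfl
  map_smul' r f := by rw [map_smul]; rfl

lemma lam_apply (T : S p d ≃ₗ[ℂ_[p]] S p d) (f : S p d) : lam T f = (T f).1 0 := rfl

lemma rho_apply (w : W p d) (t : ℚ_[p]) (f : S p d) (x : V p d) :
    (rho ψ hψ w t f).1 x =
      ψ (t + (fstV w ⬝ᵥ sndV w) / 2) * ψ (sndV w ⬝ᵥ x) * f.1 (x + fstV w) := rfl

variable {hψ}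

lemma Intertwines.lam_norm {g : Sp p d} {T : S p d ≃ₗ[ℂ_[p]] S p d}
    (hT : Intertwines ψ hψ g T) (w : W p d) (t : ℚ_[p]) (f : S p d) :
    ‖lam T (rho ψ hψ (w ᵥ* g.1) t f)‖ = ‖(T f).1 (fstV w)‖ := by
  rw [lam_apply, hT, rho_apply, norm_mul, norm_mul, norm_char hψ, norm_char hψ, zero_add,
    one_mul, one_mul]

lemma Intertwines.lam_inv {g : Sp p d} {T : S p d ≃ₗ[ℂ_[p]] S p d}
    (hT : Intertwines ψ hψ g T) (w : W p d) (hw : fstV w = 0) (f : S p d) :
    lam T (rho ψ hψ (w ᵥ* g.1) 0 f) = lam T f := by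
  rw [lam_apply, hT, rho_apply, hw, lam_apply]
  simp

lemma Intertwines.lam_ne {g : Sp p d} {T : S p d ≃ₗ[ℂ_[p]] S p d}
    (hT : Intertwines ψ hψ g T) : lam T ≠ 0 := by
  intro h
  have h1 : T (oneS p d) = 0 := by
    apply S_ext
    intro x
    have h2 := hT.lam_norm (Sum.elim x 0) 0 (oneS p d)
    rw [h, LinearMap.zero_apply, norm_zero] at h2
    exact norm_eq_zero.1 h2.symm
  have h3 : oneS p d = 0 := by
    rw [← T.map_eq_zero_iff]; exact h1
  have h4 := congrArg (fun f : S p d => f.1 0) h3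
  simp only [one_apply_of (x := (0 : V p d)) (by rw [norm_zero]; exact zero_le_one)] at h4
  exact one_ne_zero h4

/-- the matrix with lower blocks `-1, -A`, `A = diag (2 c m)` -/
def gA (c : ℚ_[p]) (m : V p d) : Sp p d :=
  ⟨fromBlocks 0 1 (-1) (-(diagonal fun j => 2 * c * m j)), by
    rw [SymplecticGroup.mem_iff, J, fromBlocks_transpose, fromBlocks_multiply, fromBlocks_multiply]
    simp⟩

lemma vecMul_gA (a m : V p d) :
    (Sum.elim 0 (-a) : W p d) ᵥ* (gA c m).1 = Sum.elim a (fun j => 2 * c * m j * a j) := by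
  unfold gA
  rw [vecMul_fromBlocks]
  congr 1
  · simp [vecMul_neg]
  · ext j
    simp [neg_vecMul, vecMul_diagonal, mul_comm]

@[simp] lemma fstV_elim (a b : V p d) : fstV (Sum.elim a b : W p d) = a := rfl
@[simp] lemma sndV_elim (a b : V p d) : sndV (Sum.elim a b : W p d) = b := rfl

/-- translation invariance of `h ↦ λ (E(-m) h)` -/
lemma Intertwines.tinv {m : V p d} {T : S p d ≃ₗ[ℂ_[p]] S p d}
    (hT : Intertwines ψ hψ (gA c m) T) : TInv (lam T ∘ₗ mlL (E ψ hψ c (-m) 0)) := by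
  intro a f
  rw [LinearMap.comp_apply, LinearMap.comp_apply, mlL_apply, mlL_apply]
  rw [← hT.lam_inv (Sum.elim 0 (-a)) rfl (ml (E ψ hψ c (-m) 0) f), vecMul_gA]
  congr 1
  apply S_ext
  intro x
  rw [rho_apply, ml_apply, ml_apply, E_apply, E_apply, fstV_elim, sndV_elim, ← mul_assoc,
    ← AddChar.map_add_eq_mul, ← AddChar.map_add_eq_mul]
  show _ * f.1 (x + a) = _
  congr 2
  simp only [dotProduct, Pi.zero_apply, zero_mul, Finset.sum_const_zero, add_zero, zero_add,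
    Pi.add_apply, Pi.neg_apply]
  rw [Finset.sum_div, ← Finset.sum_add_distrib, ← Finset.sum_add_distrib]
  refine Finset.sum_congr rfl fun j _ => ?_
  ring

/-- `J (E(0,y) · 1_{ℤ_p^d})` has norm at most `1` -/
lemma norm_J_char {J : S p d →ₗ[ℂ_[p]] ℂ_[p]} (hJ : TInv J) (h1 : J (oneS p d) = 1)
    (m y : V p d) (hm : ∀ x : V p d, ‖x‖ ≤ 1 → ψ (∑ j, c * m j * x j ^ 2) = 1) :
    ‖J (ml (E ψ hψ c m y) (oneS p d))‖ ≤ 1 := by
  by_cases h : ∀ z : V p d, ‖z‖ ≤ 1 → ψ (y ⬝ᵥ z) = 1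
  · have e : ml (E ψ hψ c m y) (oneS p d) = oneS p d := by
      apply S_ext
      intro x
      rw [ml_apply]
      by_cases hx : ‖x‖ ≤ 1
      · rw [one_apply_of hx, E_apply, AddChar.map_add_eq_mul, hm x hx, h x hx, one_mul, one_mul]
      · rw [one_apply_of_not hx, mul_zero]
    rw [e, h1, norm_one]
  · push Not at h
    obtain ⟨z, hz, hz'⟩ := h
    have e : tau z (ml (E ψ hψ c m y) (oneS p d)) =
        ψ (y ⬝ᵥ z) • ml (E ψ hψ c m y) (oneS p d) := by
      apply S_ext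
      intro x
      show (ml (E ψ hψ c m y) (oneS p d)).1 (x + z) =
        ψ (y ⬝ᵥ z) * (ml (E ψ hψ c m y) (oneS p d)).1 x
      rw [ml_apply, ml_apply]
      by_cases hx : ‖x‖ ≤ 1
      · have hxz : ‖x + z‖ ≤ 1 := (IsUltrametricDist.norm_add_le_max _ _).trans (max_le hx hz)
        rw [one_apply_of hx, one_apply_of hxz, E_apply, E_apply, AddChar.map_add_eq_mul,
          AddChar.map_add_eq_mul, hm x hx, hm _ hxz, dotProduct_add, AddChar.map_add_eq_mul]
        ring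
      · have hxz : ¬ ‖x + z‖ ≤ 1 := by
          intro h
          apply hx
          have e : x = (x + z) + -z := by abel
          rw [e]
          exact (IsUltrametricDist.norm_add_le_max _ _).trans (max_le h (by rwa [norm_neg]))
        rw [one_apply_of_not hx, one_apply_of_not hxz, mul_zero, mul_zero, mul_zero]
    have h2 := hJ z (ml (E ψ hψ c m y) (oneS p d))
    rw [e, map_smul, smul_eq_mul] at h2
    have h3 : (ψ (y ⬝ᵥ z) - 1) * J (ml (E ψ hψ c m y) (oneS p d)) = 0 := by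
      rw [sub_mul, h2, one_mul, sub_self]
    rw [(mul_eq_zero.1 h3).resolve_left (sub_ne_zero.2 hz'), norm_zero]
    exact zero_le_one

lemma Std.chirp (h : Std ψ c) {m : V p d} (hm : ‖m‖ ≤ 1) (x : V p d) (hx : ‖x‖ ≤ 1) :
    ψ (∑ j, c * m j * x j ^ 2) = 1 := by
  have e : ∑ j, c * m j * x j ^ 2 = c * ∑ j, m j * x j ^ 2 := by
    rw [Finset.mul_sum]
    refine Finset.sum_congr rfl fun j _ => ?_
    ring
  rw [e]
  apply h.triv
  apply IsUltrametricDist.norm_sum_le_of_forall_le_of_nonneg zero_le_one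
  intro j _
  rw [norm_mul, norm_pow]
  exact mul_le_one₀ ((norm_le_pi_norm m j).trans hm) (by positivity)
    (pow_le_one₀ (norm_nonneg _) ((norm_le_pi_norm x j).trans hx))

/-- upper bound for `T 1` -/
lemma norm_J_rho {J : S p d →ₗ[ℂ_[p]] ℂ_[p]} (hJ : TInv J) (h1 : J (oneS p d) = 1)
    (hc : Std ψ c) {m : V p d} (hm : ‖m‖ ≤ 1) (w : W p d) (t : ℚ_[p]) :
    ‖J (ml (E ψ hψ c m 0) (rho ψ hψ w t (oneS p d)))‖ ≤ 1 := by
  rw [← hJ (-fstV w)]
  have e : tau (-fstV w) (ml (E ψ hψ c m 0) (rho ψ hψ w t (oneS p d))) =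
      ψ (∑ j, c * m j * (fstV w j) ^ 2 + t + (fstV w ⬝ᵥ sndV w) / 2 - sndV w ⬝ᵥ fstV w) •
        ml (E ψ hψ c m (sndV w - fun j => 2 * c * m j * fstV w j)) (oneS p d) := by
    apply S_ext
    intro x
    show (ml (E ψ hψ c m 0) (rho ψ hψ w t (oneS p d))).1 (x + -fstV w) =
      ψ (∑ j, c * m j * (fstV w j) ^ 2 + t + (fstV w ⬝ᵥ sndV w) / 2 - sndV w ⬝ᵥ fstV w) *
        (ml (E ψ hψ c m (sndV w - fun j => 2 * c * m j * fstV w j)) (oneS p d)).1 x
    rw [ml_apply, ml_apply, rho_apply, E_apply, E_apply, neg_add_cancel_right, ← mul_assoc,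
      ← mul_assoc, ← AddChar.map_add_eq_mul, ← AddChar.map_add_eq_mul, ← mul_assoc,
      ← AddChar.map_add_eq_mul]
    congr 2
    have e1 : ∑ j, c * m j * (x + -fstV w) j ^ 2 = ∑ j, c * m j * x j ^ 2 +
        ∑ j, c * m j * (fstV w j) ^ 2 - (fun j => 2 * c * m j * fstV w j) ⬝ᵥ x := by
      simp only [dotProduct]
      rw [← Finset.sum_add_distrib, ← Finset.sum_sub_distrib]
      refine Finset.sum_congr rfl fun j _ => ?_
      rw [Pi.add_apply, Pi.neg_apply]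
      ring
    rw [e1, zero_dotProduct, dotProduct_add, dotProduct_neg, sub_dotProduct]
    ring
  rw [e, map_smul, smul_eq_mul, norm_mul, norm_char hψ, one_mul]
  exact norm_J_char hJ h1 m _ (fun x hx => hc.chirp hm x hx)

/-- The key lower bound for the norm at `P g_A`. -/
lemma key_bound {J : S p d →ₗ[ℂ_[p]] ℂ_[p]} (hJ : TInv J) (h1 : J (oneS p d) = 1)
    (hc : Std ψ c) {m : V p d} (hm : ‖m‖ ≤ 1) {ν : S p d → ℝ}
    (hν : IsNormAt ψ hψ (gA c m) ν) (y : V p d) (f : S p d) :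
    ‖J (ml (E ψ hψ c m y) f)‖ ≤ ν f := by
  obtain ⟨T, hT, C, hC, hνT, hν1⟩ := hν
  set κ : ℂ_[p] := (lam T ∘ₗ mlL (E ψ hψ c (-m) 0)) (oneS p d) with hκ
  have hlam : ∀ f, lam T f = κ * J (ml (E ψ hψ c m 0) f) := by
    intro f
    rw [hκ, ← hT.tinv.prop hJ h1, LinearMap.comp_apply, mlL_apply, ← ml_mul, E_mul,
      neg_add_cancel, add_zero, E_zero, ml_one]
  -- upper bound for `T 1`
  have hup : ν (oneS p d) ≤ C * ‖κ‖ := by
    rw [hνT]
    apply mul_le_mul_of_nonneg_left _ hC.le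
    apply ciSup_le
    intro x
    have h2 := hT.lam_norm (Sum.elim x (0 : V p d)) 0 (oneS p d)
    rw [fstV_elim] at h2
    rw [← h2, hlam, norm_mul]
    calc _ ≤ ‖κ‖ * 1 := mul_le_mul_of_nonneg_left (norm_J_rho hJ h1 hc hm _ _) (norm_nonneg _)
      _ = _ := mul_one _
  rw [hν1] at hup
  -- lower bound for `T f`
  set w : W p d := (Sum.elim (0 : V p d) y : W p d) ᵥ* (gA c m)⁻¹.1 with hw
  have hwg : w ᵥ* (gA c m).1 = (Sum.elim (0 : V p d) y : W p d) := by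
    rw [hw, vecMul_vecMul]
    have : (gA c m)⁻¹.1 * (gA c m).1 = ((gA c m)⁻¹ * gA c m).1 := rfl
    rw [this, inv_mul_cancel]
    exact vecMul_one _
  have hlow : C * ‖κ‖ * ‖J (ml (E ψ hψ c m y) f)‖ ≤ ν f := by
    rw [hνT, mul_assoc]
    apply mul_le_mul_of_nonneg_left _ hC.le
    have e1 : ‖κ‖ * ‖J (ml (E ψ hψ c m y) f)‖ = ‖(T f).1 (fstV w)‖ := by
      rw [← hT.lam_norm w 0 f, hwg, hlam, norm_mul]
      congr 3
      apply S_ext
      intro x
      rw [ml_apply, ml_apply, rho_apply, E_apply, E_apply, fstV_elim, sndV_elim, add_zero,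
        zero_dotProduct, zero_dotProduct, zero_div, add_zero, add_zero, AddChar.map_zero_eq_one,
        one_mul, ← mul_assoc, ← AddChar.map_add_eq_mul]
    rw [e1]
    exact le_ciSup (bdd (T f)) (fstV w)
  calc ‖J (ml (E ψ hψ c m y) f)‖ = 1 * ‖J (ml (E ψ hψ c m y) f)‖ := (one_mul _).symm
    _ ≤ C * ‖κ‖ * ‖J (ml (E ψ hψ c m y) f)‖ := mul_le_mul_of_nonneg_right hup (norm_nonneg _)
    _ ≤ ν f := hlow

/-- existence of a normalized translation invariant functional -/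
lemma exists_J {ν : S p d → ℝ} (hν : IsNormAt ψ hψ (gA c (0 : V p d)) ν) :
    ∃ J : S p d →ₗ[ℂ_[p]] ℂ_[p], TInv J ∧ J (oneS p d) = 1 := by
  obtain ⟨T, hT, -⟩ := hν
  have h := hT.tinv
  rw [neg_zero, E_zero] at h
  set l := lam T ∘ₗ mlL (1 : LocallyConstant (V p d) ℂ_[p]) with hl
  have hll : l = lam T := by
    ext f
    rw [hl, LinearMap.comp_apply, mlL_apply, ml_one]
  have h0 : l (oneS p d) ≠ 0 := fun h0 => hT.lam_ne (hll ▸ h.eq_zero h0)
  refine ⟨(l (oneS p d))⁻¹ • l, fun a f => ?_, ?_⟩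
  · rw [LinearMap.smul_apply, LinearMap.smul_apply, h a f]
  · rw [LinearMap.smul_apply, smul_eq_mul, inv_mul_cancel₀ h0]

end Pool.Agent.R316.HN
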