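import Pool.Agent.R316.HN.Step2

set_option autoImplicit false

noncomputable section

open Matrix Finset

namespace Pool.Agent.R316.HN

variable {p : ℕ} [Fact p.Prime] {d : ℕ}
variable {ψ : AddChar ℚ_[p] ℂ_[p]} {c : ℚ_[p]} {hψ : IsLocallyConstant ψ}

/-! ### The point `P` -/

lemma lam_zero_of {T : S p d ≃ₗ[ℂ_[p]] S p d} (hT : Intertwines ψ hψ 1 T)
    (hc0 : c ≠ 0) (hc : Std ψ c) (f : S p d) (hf : f.1 0 = 0) : lam T f = 0 := by
  obtain ⟨m, hm⟩ := exists_inv f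
  obtain ⟨F, hF⟩ := decomp f m hm
  rw [hF, map_sum]
  refine Finset.sum_eq_zero fun a _ => ?_
  rw [map_smul, smul_eq_mul]
  by_cases ha : ‖a‖ ≤ (p : ℝ) ^ (-(m : ℤ))
  · have := hm 0 a ha
    rw [zero_add, hf] at this
    rw [this, zero_mul]
  · rw [pi_norm_le_iff_of_nonneg (rpos _).le] at ha
    push Not at ha
    obtain ⟨i, hi⟩ := ha
    have hai : a i ≠ 0 := by
      intro h
      rw [h, norm_zero] at hi
      exact absurd hi (not_lt.2 (rpos _).le)
    set b : V p d := Pi.single i (c * ((p : ℚ_[p])⁻¹ / a i)) with hb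
    have h1 := hT.lam_inv (Sum.elim (0 : V p d) b) rfl (ind a m)
    have h2 : (Sum.elim (0 : V p d) b : W p d) ᵥ* (1 : Sp p d).1 = Sum.elim (0 : V p d) b :=
      vecMul_one _
    rw [h2] at h1
    have h3 : rho ψ hψ (Sum.elim (0 : V p d) b) 0 (ind a m) = ψ (c * (p : ℚ_[p])⁻¹) • ind a m := by
      apply S_ext
      intro x
      have hr : (ψ (c * (p : ℚ_[p])⁻¹) • ind a m : S p d).1 x =
        ψ (c * (p : ℚ_[p])⁻¹) * (ind a m).1 x := rfl
      rw [hr, rho_apply, fstV_elim, sndV_elim, add_zero, zero_dotProduct, zero_div, add_zero,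
        AddChar.map_zero_eq_one, one_mul]
      by_cases hx : ‖x - a‖ ≤ (p : ℝ) ^ (-(m : ℤ))
      · congr 1
        rw [hb, single_dotProduct]
        have e : c * ((p : ℚ_[p])⁻¹ / a i) * x i =
            c * (p : ℚ_[p])⁻¹ + c * ((p : ℚ_[p])⁻¹ * ((x i - a i) / a i)) := by
          have := pQ_ne (p := p)
          field_simp
          ring
        rw [e, AddChar.map_add_eq_mul, hc.triv ((p : ℚ_[p])⁻¹ * ((x i - a i) / a i)), mul_one]
        -- `‖(x i - a i) / a i‖ ≤ p⁻¹`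
        have h5 : ‖(x i - a i) / a i‖ < 1 := by
          rw [norm_div, div_lt_one (norm_pos_iff.2 hai)]
          refine lt_of_le_of_lt ?_ hi
          have := norm_le_pi_norm (x - a) i
          exact this.trans hx
        have h6 : ‖(x i - a i) / a i‖ ≤ (p : ℝ) ^ (-1 : ℤ) := by
          rw [Padic.norm_le_pow_iff_norm_lt_pow_add_one]
          simpa using h5
        rw [norm_mul, norm_inv, norm_p', inv_inv]
        rw [_root_.zpow_neg_one] at h6
        calc (p : ℝ) * _ ≤ p * (p : ℝ)⁻¹ := mul_le_mul_of_nonneg_left h6 ppos.le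
          _ = 1 := mul_inv_cancel₀ ppos.ne'
      · rw [ind_apply_of_not hx, mul_zero, mul_zero]
    rw [h3, map_smul, smul_eq_mul] at h1
    have h4 : (ψ (c * (p : ℚ_[p])⁻¹) - 1) * lam T (ind a m) = 0 := by
      rw [sub_mul, h1, one_mul, sub_self]
    rw [(mul_eq_zero.1 h4).resolve_left (sub_ne_zero.2 hc.ne), mul_zero]

lemma lam_eq {T : S p d ≃ₗ[ℂ_[p]] S p d} (hT : Intertwines ψ hψ 1 T)
    (hc0 : c ≠ 0) (hc : Std ψ c) (f : S p d) : lam T f = f.1 0 * lam T (oneS p d) := by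
  have h1 : (oneS p d).1 0 = 1 := one_apply_of (by rw [norm_zero]; exact zero_le_one)
  have h2 : lam T (f - f.1 0 • oneS p d) = 0 := by
    apply lam_zero_of hT hc0 hc
    show f.1 0 - f.1 0 * (oneS p d).1 0 = 0
    rw [h1, mul_one, sub_self]
  rw [map_sub, map_smul, smul_eq_mul, sub_eq_zero] at h2
  exact h2

/-- `|f(0)|` is dominated by the norm at `P` -/
lemma base_bound (hc0 : c ≠ 0) (hc : Std ψ c) {ν : S p d → ℝ} (hν : IsNormAt ψ hψ 1 ν) :
    ∃ r : ℝ, 0 ≤ r ∧ ∀ f, ‖f.1 0‖ ≤ r * ν f := by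
  obtain ⟨T, hT, C, hC, hνT, -⟩ := hν
  have h0 : lam T (oneS p d) ≠ 0 := by
    intro h
    apply hT.lam_ne
    ext f
    rw [lam_eq hT hc0 hc, h, mul_zero, LinearMap.zero_apply]
  have h0' : 0 < ‖lam T (oneS p d)‖ := norm_pos_iff.2 h0
  refine ⟨(C * ‖lam T (oneS p d)‖)⁻¹, by positivity, fun f => ?_⟩
  rw [hνT, le_inv_mul_iff₀ (by positivity), mul_assoc]
  apply mul_le_mul_of_nonneg_left _ hC.le
  calc ‖lam T (oneS p d)‖ * ‖f.1 0‖ = ‖(T f).1 0‖ := by
        rw [← lam_apply, lam_eq hT hc0 hc f, norm_mul, mul_comm]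
    _ ≤ _ := le_ciSup (bdd (T f)) 0

/-! ### Topology -/

lemma cl_eq_iff {g h : Sp p d} : cl g = cl h ↔ h * g⁻¹ ∈ Par p d := by
  exact (Quotient.eq (r := QuotientGroup.rightRel (Par p d))).trans QuotientGroup.rightRel_apply

lemma mem_Par_iff {g : Sp p d} : g ∈ Par p d ↔ g.1.toBlocks₂₁ = 0 := Iff.rfl

lemma exists_rep_cl (α : X p d) : ∃ g : Sp p d, cl g = α := Quotient.exists_rep α

/-- lower blocks of `h g`, `h ∈ P` -/
lemma lower_mul {h g : Sp p d} (hh : h ∈ Par p d) :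
    (h * g).1.toBlocks₂₁ = h.1.toBlocks₂₂ * g.1.toBlocks₂₁ ∧
    (h * g).1.toBlocks₂₂ = h.1.toBlocks₂₂ * g.1.toBlocks₂₂ := by
  rw [mem_Par_iff] at hh
  rw [show (h * g).1 = h.1 * g.1 from rfl, ← fromBlocks_toBlocks h.1, ← fromBlocks_toBlocks g.1,
    fromBlocks_multiply]
  simp only [toBlocks_fromBlocks₂₁, toBlocks_fromBlocks₂₂, hh, zero_mul, zero_add]
  exact ⟨trivial, trivial⟩

/-- the condition `D = C diag(2 c m)` with `m ∈ ℤ_p^d` on the lower blocks `C, D` of `g` -/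
def Cond (c : ℚ_[p]) (g : Sp p d) : Prop :=
  ∃ m : V p d, ‖m‖ ≤ 1 ∧ g.1.toBlocks₂₂ = g.1.toBlocks₂₁ * diagonal fun j => 2 * c * m j

lemma Cond.mul {g h : Sp p d} (hg : Cond c g) (hh : h ∈ Par p d) : Cond c (h * g) := by
  obtain ⟨m, hm, e⟩ := hg
  refine ⟨m, hm, ?_⟩
  rw [(lower_mul hh).1, (lower_mul hh).2, e, Matrix.mul_assoc]

lemma isClosed_cond (c : ℚ_[p]) : IsClosed {g : Sp p d | Cond c g} := by
  have hK : CompactSpace (Metric.closedBall (0 : V p d) 1) :=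
    isCompact_iff_compactSpace.1 (isCompact_closedBall _ _)
  have h1 : IsClosed {q : Sp p d × Metric.closedBall (0 : V p d) 1 |
      q.1.1.toBlocks₂₂ = q.1.1.toBlocks₂₁ * diagonal fun j => 2 * c * q.2.1 j} := by
    apply isClosed_eq
    · apply Continuous.matrix_submatrix
      fun_prop
    · apply Continuous.matrix_mul
      · apply Continuous.matrix_submatrix
        fun_prop
      · apply Continuous.matrix_diagonal
        exact continuous_pi fun j => continuous_const.mul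
          ((continuous_apply j).comp (continuous_subtype_val.comp continuous_snd))
  have h2 := isClosedMap_fst_of_compactSpace _ h1
  convert h2 using 1
  ext g
  constructor
  · rintro ⟨m, hm, e⟩
    exact ⟨(g, ⟨m, mem_closedBall_zero_iff.2 hm⟩), e, rfl⟩
  · rintro ⟨⟨g', m⟩, e, rfl⟩
    exact ⟨m.1, mem_closedBall_zero_iff.1 m.2, e⟩

/-- the set `I₁` -/
def I1 (c : ℚ_[p]) : Set (X p d) := {α | ∃ g : Sp p d, cl g = α ∧ Cond c g}

/-- the set `I₂` -/
def I2 : Set (X p d) := {cl 1}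

lemma isQuotientMap_cl : Topology.IsQuotientMap (cl : Sp p d → X p d) :=
  isQuotientMap_quotient_mk'

lemma preimage_I1 (c : ℚ_[p]) : cl ⁻¹' (I1 c : Set (X p d)) = {g : Sp p d | Cond c g} := by
  ext g
  constructor
  · rintro ⟨g', hg', h⟩
    rw [cl_eq_iff] at hg'
    have := h.mul hg'
    rwa [inv_mul_cancel_right] at this
  · intro h
    exact ⟨g, rfl, h⟩

lemma isClosed_I1 (c : ℚ_[p]) : IsClosed (I1 c : Set (X p d)) := by
  rw [← isQuotientMap_cl.isClosed_preimage, preimage_I1]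
  exact isClosed_cond c

lemma preimage_I2 : cl ⁻¹' (I2 : Set (X p d)) = {g : Sp p d | g.1.toBlocks₂₁ = 0} := by
  ext g
  rw [Set.mem_preimage, I2, Set.mem_singleton_iff, eq_comm, cl_eq_iff, inv_one, mul_one,
    mem_Par_iff]
  rfl

lemma isClosed_I2 : IsClosed (I2 : Set (X p d)) := by
  rw [← isQuotientMap_cl.isClosed_preimage, preimage_I2]
  apply isClosed_eq
  · apply Continuous.matrix_submatrix
    fun_prop
  · exact continuous_const

lemma gA_cond {m : V p d} (hm : ‖m‖ ≤ 1) : Cond c (gA c m) := by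
  refine ⟨m, hm, ?_⟩
  unfold gA
  simp

lemma gA_mem {m : V p d} (hm : ‖m‖ ≤ 1) : cl (gA c m) ∈ I1 c := ⟨_, rfl, gA_cond hm⟩

lemma disjoint_I (hd : 1 ≤ d) (c : ℚ_[p]) : Disjoint (I1 c : Set (X p d)) I2 := by
  rw [Set.disjoint_left]
  intro α h1 h2
  obtain ⟨g, rfl⟩ := exists_rep_cl α
  have h1' : g ∈ cl ⁻¹' (I1 c : Set (X p d)) := h1
  have h2' : g ∈ cl ⁻¹' (I2 : Set (X p d)) := h2
  rw [preimage_I1] at h1'
  rw [preimage_I2] at h2'
  obtain ⟨m, -, e⟩ := h1'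
  have hC : g.1.toBlocks₂₁ = 0 := h2'
  rw [hC, zero_mul] at e
  have h3 := SymplecticGroup.mem_iff.1 g.2
  rw [← fromBlocks_toBlocks g.1, hC, e, J, fromBlocks_transpose, fromBlocks_multiply,
    fromBlocks_multiply] at h3
  have h4 := congrArg toBlocks₂₁ h3
  simp only [toBlocks_fromBlocks₂₁, zero_mul, add_zero] at h4
  have h5 := congrFun (congrFun h4 ⟨0, hd⟩) ⟨0, hd⟩
  simp at h5

end Pool.Agent.R316.HN
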