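import Pool.Agent.R316.HN.Inter

set_option autoImplicit false

noncomputable section

open Matrix Finset

namespace Pool.Agent.R316.HN

variable {p : ℕ} [Fact p.Prime] {d : ℕ}
variable {ψ : AddChar ℚ_[p] ℂ_[p]} {c : ℚ_[p]}

/-- the property of a locally constant function `φ` used in the induction -/
def Q (ψ : AddChar ℚ_[p] ℂ_[p]) (hψ : IsLocallyConstant ψ) (c : ℚ_[p])
    (L : LocallyConstant (V p d) ℂ_[p] →ₗ[ℂ_[p]] ℂ_[p]) (B : ℝ)
    (φ : LocallyConstant (V p d) ℂ_[p]) : Prop :=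
  ∀ (m : Fin d → ℕ) (y : V p d), ‖L (φ * E ψ hψ c (fun j => (m j : ℚ_[p])) y)‖ ≤ B

variable {hψ : IsLocallyConstant ψ} {L : LocallyConstant (V p d) ℂ_[p] →ₗ[ℂ_[p]] ℂ_[p]} {B : ℝ}

/-- the generator `u ψ(c n x_j² + r x_j) - 1` -/
def gen (ψ : AddChar ℚ_[p] ℂ_[p]) (hψ : IsLocallyConstant ψ) (c : ℚ_[p]) (j : Fin d)
    (u : ℂ_[p]) (r : ℚ_[p]) : LocallyConstant (V p d) ℂ_[p] :=
  u • E ψ hψ c (fun i => ((Pi.single j 1 : Fin d → ℕ) i : ℚ_[p])) (Pi.single j r) - 1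

lemma Q.gen {φ : LocallyConstant (V p d) ℂ_[p]} (h : Q ψ hψ c L B φ) (j : Fin d) {u : ℂ_[p]}
    (hu : ‖u‖ ≤ 1) (r : ℚ_[p]) : Q ψ hψ c L B (φ * gen ψ hψ c j u r) := by
  intro m y
  have e : φ * HN.gen ψ hψ c j u r * E ψ hψ c (fun j => (m j : ℚ_[p])) y =
      u • (φ * E ψ hψ c (fun i => ((Pi.single j 1 + m : Fin d → ℕ) i : ℚ_[p]))
        (Pi.single j r + y)) - φ * E ψ hψ c (fun j => (m j : ℚ_[p])) y := by
    have e1 : (fun i => ((Pi.single j 1 + m : Fin d → ℕ) i : ℚ_[p])) =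
        (fun i => ((Pi.single j 1 : Fin d → ℕ) i : ℚ_[p])) + fun i => (m i : ℚ_[p]) := by
      funext i
      rw [Pi.add_apply, Pi.add_apply, Nat.cast_add]
    rw [e1, ← E_mul]
    unfold HN.gen
    rw [mul_sub, mul_one, sub_mul, mul_smul_comm, smul_mul_assoc, mul_assoc]
  rw [e, map_sub, map_smul, sub_eq_add_neg]
  refine (IsUltrametricDist.norm_add_le_max _ _).trans (max_le ?_ ?_)
  · rw [norm_smul]
    exact (mul_le_of_le_one_left (norm_nonneg _) hu).trans (h _ _)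
  · rw [norm_neg]
    exact h m y

lemma Q.add {φ φ' : LocallyConstant (V p d) ℂ_[p]} (h : Q ψ hψ c L B φ) (h' : Q ψ hψ c L B φ') :
    Q ψ hψ c L B (φ + φ') := by
  intro m y
  rw [add_mul, map_add]
  exact (IsUltrametricDist.norm_add_le_max _ _).trans (max_le (h m y) (h' m y))

lemma Q.char {φ : LocallyConstant (V p d) ℂ_[p]} (h : Q ψ hψ c L B φ) (z : V p d) :
    Q ψ hψ c L B (φ * E ψ hψ c 0 z) := by
  intro m y
  rw [mul_assoc, E_mul, zero_add]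
  exact h m _

lemma Q.sum_char {φ : LocallyConstant (V p d) ℂ_[p]} (hB : 0 ≤ B) (h : Q ψ hψ c L B φ)
    {ι : Type} (s : Finset ι) (z : ι → V p d) :
    Q ψ hψ c L B (φ * ∑ k ∈ s, E ψ hψ c 0 (z k)) := by
  intro m y
  rw [mul_sum, sum_mul, map_sum]
  apply IsUltrametricDist.norm_sum_le_of_forall_le_of_nonneg hB
  intro k _
  exact h.char (z k) m y

lemma Q.prod {ι : Type} (s : Finset ι) (F : ι → LocallyConstant (V p d) ℂ_[p])
    (hF : ∀ i ∈ s, ∀ φ, Q ψ hψ c L B φ → Q ψ hψ c L B (φ * F i)) :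
    ∀ φ, Q ψ hψ c L B φ → Q ψ hψ c L B (φ * ∏ i ∈ s, F i) := by
  classical
  induction s using Finset.induction_on with
  | empty => intro φ h; simpa using h
  | insert a s ha ih =>
    intro φ h
    rw [Finset.prod_insert ha, ← mul_assoc]
    exact ih (fun i hi => hF i (Finset.mem_insert_of_mem hi)) _
      (hF a (Finset.mem_insert_self a s) φ h)

/-- `x ↦ G (x_j)` -/
def GA (ψ : AddChar ℚ_[p] ℂ_[p]) (hψ : IsLocallyConstant ψ) (c : ℚ_[p]) (M : ℕ) (j : Fin d) :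
    LocallyConstant (V p d) ℂ_[p] :=
  ∏ i ∈ range M, ∏ k ∈ (range (p ^ (i + 1))).filter (Nat.Coprime (p ^ (i + 1))),
    gen ψ hψ c j (ψ (c * (k / (p : ℚ_[p]) ^ (i + 1)) ^ 2)) (-2 * c * (k / (p : ℚ_[p]) ^ (i + 1)))

/-- `x ↦ D (x_j)` -/
def DA (ψ : AddChar ℚ_[p] ℂ_[p]) (hψ : IsLocallyConstant ψ) (c : ℚ_[p]) (m : ℕ) (j : Fin d) :
    LocallyConstant (V p d) ℂ_[p] :=
  ∑ k ∈ range (p ^ m), E ψ hψ c 0 (Pi.single j (c * (k / (p : ℚ_[p]) ^ m)))

lemma lc_prod_apply {ι : Type} (s : Finset ι) (F : ι → LocallyConstant (V p d) ℂ_[p])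
    (x : V p d) : (∏ i ∈ s, F i) x = ∏ i ∈ s, F i x :=
  map_prod (LocallyConstant.evalMonoidHom x) F s

lemma lc_sum_apply {ι : Type} (s : Finset ι) (F : ι → LocallyConstant (V p d) ℂ_[p])
    (x : V p d) : (∑ i ∈ s, F i) x = ∑ i ∈ s, F i x :=
  map_sum (LocallyConstant.evalRingHom x) F s

lemma gen_apply (j : Fin d) (r : ℚ_[p]) (x : V p d) :
    gen ψ hψ c j (ψ (c * r ^ 2)) (-2 * c * r) x = ψ (c * (x j - r) ^ 2) - 1 := by
  unfold gen
  rw [LocallyConstant.coe_sub, Pi.sub_apply, LocallyConstant.coe_smul, Pi.smul_apply, smul_eq_mul,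
    E_apply, LocallyConstant.coe_one, Pi.one_apply, ← AddChar.map_add_eq_mul]
  congr 2
  rw [single_dotProduct, Finset.sum_eq_single j]
  · rw [Pi.single_eq_same]
    push_cast
    ring
  · intro i _ hi
    rw [Pi.single_eq_of_ne hi]
    simp
  · intro h; exact absurd (Finset.mem_univ _) h

lemma GA_apply (M : ℕ) (j : Fin d) (x : V p d) : GA ψ hψ c M j x = G ψ c M (x j) := by
  unfold GA G fac
  rw [lc_prod_apply]
  refine Finset.prod_congr rfl fun i _ => ?_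
  rw [lc_prod_apply]
  refine Finset.prod_congr rfl fun k _ => ?_
  rw [gen_apply]

lemma DA_apply (m : ℕ) (j : Fin d) (x : V p d) : DA ψ hψ c m j x = D ψ c m (x j) := by
  unfold DA D
  rw [lc_sum_apply]
  refine Finset.sum_congr rfl fun k _ => ?_
  rw [E_apply, single_dotProduct]
  congr 1
  simp [mul_assoc]

lemma Q.final (hB : 0 ≤ B) (h : Q ψ hψ c L B 1) (M m : ℕ) :
    ‖L ((∏ j, GA ψ hψ c M j) * ∏ j, DA ψ hψ c m j)‖ ≤ B := by
  have h1 : Q ψ hψ c L B ((∏ j, GA ψ hψ c M j) * ∏ j, DA ψ hψ c m j) := by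
    apply Q.prod
    · intro j _ φ hφ
      exact hφ.sum_char hB _ _
    · rw [← one_mul (∏ j, GA ψ hψ c M j)]
      apply Q.prod _ _ _ _ h
      intro j _ φ hφ
      apply Q.prod _ _ _ _ hφ
      intro i _ φ hφ
      apply Q.prod _ _ _ _ hφ
      intro k _ φ hφ
      exact hφ.gen j (norm_char hψ _).le _
  have h2 := h1 0 0
  have e : (fun j : Fin d => (((0 : Fin d → ℕ) j : ℕ) : ℚ_[p])) = 0 := by
    funext j; simp
  rwa [e, E_zero, mul_one] at h2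

lemma Std.fac_inv (h : Std ψ c) {i m M : ℕ} (hi : i < M) (hm : M ≤ m) {x : ℚ_[p]}
    (hx : ‖x‖ ≤ (p : ℝ) ^ (-(m : ℤ))) : fac ψ c i x = fac ψ c i 0 := by
  unfold fac
  refine Finset.prod_congr rfl fun k _ => ?_
  congr 1
  set r : ℚ_[p] := k / (p : ℚ_[p]) ^ (i + 1) with hr
  have hr1 : ‖r‖ ≤ (p : ℝ) ^ (i + 1) := by
    rw [hr, norm_div, norm_pow, norm_p', inv_pow, div_inv_eq_mul]
    apply mul_le_of_le_one_left (by positivity)
    exact_mod_cast Padic.norm_int_le_one (p := p) (k : ℤ)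
  have e : c * (x - r) ^ 2 = c * (0 - r) ^ 2 + c * (x * (x - 2 * r)) := by ring
  rw [e, AddChar.map_add_eq_mul, h.triv (x * (x - 2 * r)), mul_one]
  have h1 : (1 : ℝ) ≤ (p : ℝ) ^ (i + 1) := one_le_pow₀ (one_lt_p (p := p)).le
  have hx1 : ‖x‖ ≤ 1 := hx.trans (zpow_le_one_of_nonpos₀ (one_lt_p (p := p)).le (by simp))
  have h2 : ‖x - 2 * r‖ ≤ (p : ℝ) ^ (i + 1) := by
    rw [sub_eq_add_neg]
    refine (IsUltrametricDist.norm_add_le_max _ _).trans (max_le (hx1.trans h1) ?_)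
    rw [norm_neg, norm_mul]
    have : ‖(2 : ℚ_[p])‖ ≤ 1 := by exact_mod_cast Padic.norm_int_le_one (p := p) 2
    exact (mul_le_of_le_one_left (norm_nonneg _) this).trans hr1
  rw [norm_mul]
  calc ‖x‖ * ‖x - 2 * r‖ ≤ (p : ℝ) ^ (-(m : ℤ)) * (p : ℝ) ^ (i + 1) :=
        mul_le_mul hx h2 (norm_nonneg _) (rpos _).le
    _ = (p : ℝ) ^ (-(m : ℤ) + ((i + 1 : ℕ) : ℤ)) := by
        rw [zpow_add₀ ppos.ne', zpow_natCast]
    _ ≤ 1 := zpow_le_one_of_nonpos₀ (one_lt_p (p := p)).le (by push_cast; omega)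

lemma Std.G_inv (h : Std ψ c) {m M : ℕ} (hm : M ≤ m) {x : ℚ_[p]}
    (hx : ‖x‖ ≤ (p : ℝ) ^ (-(m : ℤ))) : G ψ c M x = G ψ c M 0 := by
  unfold G
  exact Finset.prod_congr rfl fun i hi => h.fac_inv (Finset.mem_range.1 hi) hm hx

/-- the main estimate -/
lemma main_est {J : S p d →ₗ[ℂ_[p]] ℂ_[p]} (hJ : TInv J) (h1 : J (oneS p d) = 1)
    (hc : Std ψ c) (hψ : IsLocallyConstant ψ) (f : S p d) {B : ℝ} (hB : 0 ≤ B)
    (h : ∀ (m : Fin d → ℕ) (y : V p d),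
      ‖J (ml (E ψ hψ c (fun j => (m j : ℚ_[p])) y) f)‖ ≤ B) :
    ‖f.1 0‖ ≤ (p : ℝ) ^ d * B := by
  obtain ⟨m₁, hm₁⟩ := exists_inv f
  obtain ⟨M, hM⟩ := exists_supp f
  set m := max m₁ M with hm
  have hmM : M ≤ m := le_max_right _ _
  have hinv : ∀ x z : V p d, ‖z‖ ≤ (p : ℝ) ^ (-(m : ℤ)) → f.1 (x + z) = f.1 x := by
    intro x z hz
    apply hm₁
    refine hz.trans (zpow_le_zpow_right₀ (one_lt_p (p := p)).le ?_)
    have : m₁ ≤ m := le_max_left _ _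
    omega
  have hQ : Q ψ hψ c (J ∘ₗ mlR f) B 1 := by
    intro m y
    rw [one_mul, LinearMap.comp_apply, mlR_apply]
    exact h m y
  have h2 := hQ.final hB M m
  rw [LinearMap.comp_apply, mlR_apply] at h2
  have e : ml ((∏ j, GA ψ hψ c M j) * ∏ j, DA ψ hψ c m j) f =
      (f.1 0 * (G ψ c M 0) ^ d * ((p : ℂ_[p]) ^ m) ^ d) • ind 0 m := by
    apply S_ext
    intro x
    have hr : ((f.1 0 * (G ψ c M 0) ^ d * ((p : ℂ_[p]) ^ m) ^ d) • ind 0 m : S p d).1 x =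
      (f.1 0 * (G ψ c M 0) ^ d * ((p : ℂ_[p]) ^ m) ^ d) * (ind (0 : V p d) m).1 x := rfl
    rw [hr, ml_apply, LocallyConstant.coe_mul, Pi.mul_apply, lc_prod_apply, lc_prod_apply]
    by_cases hx : ‖x‖ ≤ (p : ℝ) ^ (-(m : ℤ))
    · rw [ind_apply_of (by rwa [sub_zero]), mul_one]
      have hxj : ∀ j, ‖x j‖ ≤ (p : ℝ) ^ (-(m : ℤ)) := fun j => (norm_le_pi_norm x j).trans hx
      have h3 := hinv 0 x hx
      rw [zero_add] at h3
      rw [h3, Finset.prod_congr rfl (fun j _ => GA_apply (hψ := hψ) (c := c) M j x),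
        Finset.prod_congr rfl (fun j _ => DA_apply (hψ := hψ) (c := c) m j x),
        Finset.prod_congr rfl (fun j _ => hc.G_inv hmM (hxj j)),
        Finset.prod_congr rfl (fun j _ => hc.D_small (hxj j))]
      simp only [Finset.prod_const, Finset.card_univ, Fintype.card_fin]
      ring
    · rw [ind_apply_of_not (by rwa [sub_zero]), mul_zero]
      by_cases hfx : f.1 x = 0
      · rw [hfx, mul_zero]
      have hxM := hM x hfx
      by_cases hx1 : ‖x‖ ≤ 1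
      · -- some coordinate is larger than `p^(-m)`
        rw [pi_norm_le_iff_of_nonneg (rpos _).le] at hx
        push Not at hx
        obtain ⟨j, hj⟩ := hx
        rw [Finset.prod_eq_zero (i := j) (f := fun j => DA ψ hψ c m j x) (Finset.mem_univ j),
          mul_zero, zero_mul]
        rw [DA_apply]
        exact hc.D_zero ((norm_le_pi_norm x j).trans hx1) (not_le.2 hj)
      · rw [pi_norm_le_iff_of_nonneg zero_le_one] at hx1
        push Not at hx1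
        obtain ⟨j, hj⟩ := hx1
        rw [Finset.prod_eq_zero (i := j) (f := fun j => GA ψ hψ c M j x) (Finset.mem_univ j),
          zero_mul, zero_mul]
        rw [GA_apply]
        exact hc.G_zero hj ((norm_le_pi_norm x j).trans hxM)
  rw [e, map_smul, smul_eq_mul, mul_assoc, hJ.small, h1, mul_one, norm_mul, norm_pow] at h2
  have h3 : (p : ℝ)⁻¹ ^ d ≤ ‖G ψ c M 0‖ ^ d :=
    pow_le_pow_left₀ (inv_nonneg.2 ppos.le) (hc.G_bound M (by rw [norm_zero]; exact zero_le_one)) d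
  have h4 : ‖f.1 0‖ * (p : ℝ)⁻¹ ^ d ≤ B :=
    (mul_le_mul_of_nonneg_left h3 (norm_nonneg _)).trans h2
  have hpd : (0 : ℝ) < (p : ℝ) ^ d := pow_pos ppos d
  calc ‖f.1 0‖ = (p : ℝ) ^ d * (‖f.1 0‖ * (p : ℝ)⁻¹ ^ d) := by
        rw [inv_pow]; field_simp
    _ ≤ _ := mul_le_mul_of_nonneg_left h4 hpd.le

end Pool.Agent.R316.HN
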