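import Pool.Agent.R316.HN.Haar

set_option autoImplicit false

noncomputable section

open Matrix Finset

namespace Pool.Agent.R316.HN

variable {p : ℕ} [Fact p.Prime] {d : ℕ}
variable {ψ : AddChar ℚ_[p] ℂ_[p]} {c : ℚ_[p]} {hψ : IsLocallyConstant ψ}

/-! ### The group of the `g` that have an intertwining operator -/

/-- composition with a homeomorphism -/
def compS (e : V p d ≃ₜ V p d) : S p d →ₗ[ℂ_[p]] S p d where
  toFun f := ⟨fun x => f.1 (e x), f.2.1.comp_continuous e.continuous, f.2.2.comp_homeomorph e⟩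
  map_add' _ _ := S_ext fun _ => rfl
  map_smul' _ _ := S_ext fun _ => rfl

lemma compS_apply (e : V p d ≃ₜ V p d) (f : S p d) (x : V p d) : (compS e f).1 x = f.1 (e x) := rfl

/-- composition with a homeomorphism, as an equivalence -/
def compE (e : V p d ≃ₜ V p d) : S p d ≃ₗ[ℂ_[p]] S p d :=
  LinearEquiv.ofLinearMap (compS e) (compS e.symm)
    (by
      apply LinearMap.ext; intro f; apply S_ext; intro x
      rw [LinearMap.comp_apply, compS_apply, compS_apply, e.symm_apply_apply]; rfl)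
    (by
      apply LinearMap.ext; intro f; apply S_ext; intro x
      rw [LinearMap.comp_apply, compS_apply, compS_apply, e.apply_symm_apply]; rfl)

lemma compE_apply (e : V p d ≃ₜ V p d) (f : S p d) (x : V p d) : (compE e f).1 x = f.1 (e x) := rfl

/-- multiplication by an invertible locally constant function, as an equivalence -/
def mulE (φ φ' : LocallyConstant (V p d) ℂ_[p]) (h : φ * φ' = 1) : S p d ≃ₗ[ℂ_[p]] S p d :=
  LinearEquiv.ofLinearMap (mlL φ) (mlL φ')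
    (by
      apply LinearMap.ext; intro f
      rw [LinearMap.comp_apply, mlL_apply, mlL_apply, ← ml_mul, h, ml_one]; rfl)
    (by
      apply LinearMap.ext; intro f
      rw [LinearMap.comp_apply, mlL_apply, mlL_apply, ← ml_mul, mul_comm, h, ml_one]; rfl)

lemma mulE_apply (φ φ' : LocallyConstant (V p d) ℂ_[p]) (h : φ * φ' = 1) (f : S p d) (x : V p d) :
    (mulE φ φ' h f).1 x = φ x * f.1 x := rfl

lemma Intertwines.mul {g h : Sp p d} {T T' : S p d ≃ₗ[ℂ_[p]] S p d}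
    (hT : Intertwines ψ hψ g T) (hT' : Intertwines ψ hψ h T') :
    Intertwines ψ hψ (g * h) (T'.trans T) := by
  intro w t f
  have e : w ᵥ* (g * h).1 = (w ᵥ* g.1) ᵥ* h.1 := by
    rw [vecMul_vecMul]; rfl
  rw [e, LinearEquiv.trans_apply, hT', hT, LinearEquiv.trans_apply]

lemma Intertwines.inv {g : Sp p d} {T : S p d ≃ₗ[ℂ_[p]] S p d}
    (hT : Intertwines ψ hψ g T) : Intertwines ψ hψ g⁻¹ T.symm := by
  intro w t f
  rw [LinearEquiv.symm_apply_eq]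
  have h := hT (w ᵥ* (g⁻¹).1) t (T.symm f)
  rw [LinearEquiv.apply_symm_apply] at h
  rw [← h, vecMul_vecMul]
  have e : (g⁻¹).1 * g.1 = (g⁻¹ * g).1 := rfl
  rw [e, inv_mul_cancel]
  congr 2
  exact vecMul_one w

/-- the subgroup of the `g` that have an intertwining operator -/
def HG (ψ : AddChar ℚ_[p] ℂ_[p]) (hψ : IsLocallyConstant ψ) : Subgroup (Sp p d) where
  carrier := {g | ∃ T : S p d ≃ₗ[ℂ_[p]] S p d, Intertwines ψ hψ g T}
  mul_mem' := by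
    rintro g h ⟨T, hT⟩ ⟨T', hT'⟩
    exact ⟨_, hT.mul hT'⟩
  one_mem' := by
    refine ⟨LinearEquiv.refl _ _, fun w t f => ?_⟩
    have e : w ᵥ* (1 : Sp p d).1 = w := vecMul_one w
    rw [e]; rfl
  inv_mem' := by
    rintro g ⟨T, hT⟩
    exact ⟨_, hT.inv⟩

lemma mem_HG {g : Sp p d} : g ∈ (HG ψ hψ : Subgroup (Sp p d)) ↔
    ∃ T : S p d ≃ₗ[ℂ_[p]] S p d, Intertwines ψ hψ g T := Iff.rfl

/-! ### The parabolic subgroup -/

/-- the map `x ↦ x a` for an invertible matrix -/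
def rmul (a b : Matrix (Fin d) (Fin d) ℚ_[p]) (h : a * b = 1) : V p d ≃ₜ V p d where
  toFun x := x ᵥ* a
  invFun x := x ᵥ* b
  left_inv x := by
    show (x ᵥ* a) ᵥ* b = x
    rw [vecMul_vecMul, h, vecMul_one]
  right_inv x := by
    show (x ᵥ* b) ᵥ* a = x
    rw [vecMul_vecMul, mul_eq_one_comm.1 h, vecMul_one]
  continuous_toFun := by fun_prop
  continuous_invFun := by fun_prop

lemma rmul_apply (a b : Matrix (Fin d) (Fin d) ℚ_[p]) (h : a * b = 1) (x : V p d) :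
    rmul a b h x = x ᵥ* a := rfl

/-- the chirp `x ↦ ψ(½ (x a)·(x b))` -/
def chi (ψ : AddChar ℚ_[p] ℂ_[p]) (hψ : IsLocallyConstant ψ)
    (a b : Matrix (Fin d) (Fin d) ℚ_[p]) : LocallyConstant (V p d) ℂ_[p] :=
  ⟨fun x => ψ (((x ᵥ* a) ⬝ᵥ (x ᵥ* b)) / 2), lc_comp hψ (by fun_prop)⟩

lemma chi_apply (a b : Matrix (Fin d) (Fin d) ℚ_[p]) (x : V p d) :
    chi ψ hψ a b x = ψ (((x ᵥ* a) ⬝ᵥ (x ᵥ* b)) / 2) := rfl

lemma chi_mul (a b : Matrix (Fin d) (Fin d) ℚ_[p]) : chi ψ hψ a b * chi ψ hψ a (-b) = 1 := by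
  ext x
  rw [LocallyConstant.coe_mul, Pi.mul_apply, chi_apply, chi_apply, ← AddChar.map_add_eq_mul,
    vecMul_neg, dotProduct_neg, neg_div, add_neg_cancel, AddChar.map_zero_eq_one]
  rfl

lemma norm_chi (a b : Matrix (Fin d) (Fin d) ℚ_[p]) (x : V p d) : ‖chi ψ hψ a b x‖ = 1 :=
  norm_char hψ _

lemma Par_blocks {h : Sp p d} (hh : h ∈ Par p d) :
    ∃ a b e : Matrix (Fin d) (Fin d) ℚ_[p], h.1 = fromBlocks a b 0 e ∧ a * eᵀ = 1 ∧
      e * aᵀ = 1 ∧ a * bᵀ = b * aᵀ := by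
  refine ⟨h.1.toBlocks₁₁, h.1.toBlocks₁₂, h.1.toBlocks₂₂, ?_⟩
  have h0 : h.1.toBlocks₂₁ = 0 := hh
  have h1 : h.1 = fromBlocks h.1.toBlocks₁₁ h.1.toBlocks₁₂ 0 h.1.toBlocks₂₂ := by
    conv_lhs => rw [← fromBlocks_toBlocks h.1, h0]
  have h2 := h.2
  rw [h1, SymplecticGroup.mem_iff, J, fromBlocks_transpose, fromBlocks_multiply,
    fromBlocks_multiply] at h2
  have h3 := congrArg toBlocks₂₁ h2
  have h4 := congrArg toBlocks₁₁ h2
  have h5 := congrArg toBlocks₁₂ h2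
  simp only [toBlocks_fromBlocks₂₁, toBlocks_fromBlocks₁₁, toBlocks_fromBlocks₁₂] at h3 h4 h5
  simp at h3 h4 h5
  refine ⟨h1, h5, h3, ?_⟩
  rw [← sub_eq_add_neg, sub_eq_zero] at h4
  exact h4.symm

lemma dot_mul (a b : Matrix (Fin d) (Fin d) ℚ_[p]) (x u : V p d) :
    (x ᵥ* a) ⬝ᵥ (u ᵥ* b) = x ⬝ᵥ ((a * bᵀ) *ᵥ u) := by
  rw [← dotProduct_mulVec, ← mulVec_transpose b u, mulVec_mulVec]

/-- the intertwining operator of an element of `P` -/
def TP (ψ : AddChar ℚ_[p] ℂ_[p]) (hψ : IsLocallyConstant ψ)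
    (a b e : Matrix (Fin d) (Fin d) ℚ_[p]) (h : a * eᵀ = 1) : S p d ≃ₗ[ℂ_[p]] S p d :=
  (compE (rmul a eᵀ h)).trans (mulE (chi ψ hψ a b) (chi ψ hψ a (-b)) (chi_mul a b))

lemma TP_apply (a b e : Matrix (Fin d) (Fin d) ℚ_[p]) (h : a * eᵀ = 1) (f : S p d) (x : V p d) :
    (TP ψ hψ a b e h f).1 x = ψ (((x ᵥ* a) ⬝ᵥ (x ᵥ* b)) / 2) * f.1 (x ᵥ* a) := rfl

lemma TP_intertwines {g : Sp p d} {a b e : Matrix (Fin d) (Fin d) ℚ_[p]} (h : a * eᵀ = 1)
    (hg : g.1 = fromBlocks a b 0 e) (hs : a * bᵀ = b * aᵀ) :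
    Intertwines ψ hψ g (TP ψ hψ a b e h) := by
  intro w t f
  obtain ⟨u, v, rfl⟩ : ∃ u v : V p d, w = Sum.elim u v := ⟨fstV w, sndV w, by
    ext i; cases i <;> rfl⟩
  have e1 : (Sum.elim u v : W p d) ᵥ* g.1 = Sum.elim (u ᵥ* a) (u ᵥ* b + v ᵥ* e) := by
    rw [hg, vecMul_fromBlocks]
    simp
  apply S_ext
  intro x
  rw [TP_apply, e1, rho_apply, rho_apply, fstV_elim, sndV_elim, fstV_elim, sndV_elim, TP_apply,
    ← add_vecMul]
  rw [← AddChar.map_add_eq_mul, ← AddChar.map_add_eq_mul, ← mul_assoc, ← mul_assoc,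
    ← AddChar.map_add_eq_mul, ← AddChar.map_add_eq_mul]
  congr 2
  have F1 : ∀ x v : V p d, (x ᵥ* a) ⬝ᵥ (v ᵥ* e) = x ⬝ᵥ v := by
    intro x v
    rw [dot_mul, h, one_mulVec]
  have F2 : (x ᵥ* a) ⬝ᵥ (u ᵥ* b) = (u ᵥ* a) ⬝ᵥ (x ᵥ* b) := by
    rw [dot_mul, dotProduct_comm (u ᵥ* a), dot_mul, hs]
  simp only [add_vecMul, dotProduct_add, add_dotProduct]
  rw [dotProduct_comm (u ᵥ* b) (x ᵥ* a), dotProduct_comm (v ᵥ* e) (x ᵥ* a), F1, F1, F2,
    dotProduct_comm v x]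
  ring

lemma Par_le : Par p d ≤ HG ψ hψ := by
  intro h hh
  obtain ⟨a, b, e, h1, h2, h3, h4⟩ := Par_blocks hh
  exact ⟨_, TP_intertwines h2 h1 h4⟩

end Pool.Agent.R316.HN
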